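import Pool.Agent.Run7.h806.TV.Axis

/-!
# All transvections, and all elements
-/

set_option autoImplicit false

namespace Run7.h806.TV

open Matrix
open Pool.Agent.R167.HG (Ball SL Mt)
open Pool.Agent.R167.HG.MainP

variable {m : ℕ} {F : Type} [Field F]

/-- the dual representation -/
def repD : SL m F →* ((Fin (m + 1) → F) →ₗ[F] (Fin (m + 1) → F)) where
  toFun g :=
    { toFun := fun χ => χ ᵥ* (g⁻¹).1
      map_add' := fun x y => add_vecMul _ _ _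
      map_smul' := fun c x => smul_vecMul _ _ _ }
  map_one' := by
    apply LinearMap.ext
    intro χ
    show χ ᵥ* ((1 : SL m F)⁻¹).1 = χ
    rw [inv_one]
    exact vecMul_one χ
  map_mul' g h := by
    apply LinearMap.ext
    intro χ
    show χ ᵥ* ((g * h)⁻¹).1 = (χ ᵥ* (h⁻¹).1) ᵥ* (g⁻¹).1
    rw [vecMul_vecMul, _root_.mul_inv_rev]
    rfl

theorem repD_apply (g : SL m F) (χ : Fin (m + 1) → F) : repD g χ = χ ᵥ* (g⁻¹).1 := rfl

theorem exists_short {S : Set (SL m F)} (hS : Subgroup.closure S = ⊤) {φ : Fin (m + 1) → F}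
    (hφ : φ ≠ 0) {u : Fin (m + 1) → F} (hu : u ≠ 0) :
    ∃ g ∈ Ball S (m + 1), (φ ᵥ* (g⁻¹).1) ⬝ᵥ u ≠ 0 := by
  have hex : ∃ g : SL m F, (φ ᵥ* (g⁻¹).1) ⬝ᵥ u ≠ 0 := by
    by_cases hc : φ ⬝ᵥ u = 0
    · obtain ⟨f, hf⟩ := exists_dot_eq_one hφ
      rw [dotProduct_comm] at hf
      obtain ⟨ψ0, hψ0⟩ := exists_dot_eq_one hu
      have h1 : (ψ0 - (ψ0 ⬝ᵥ f) • φ) ⬝ᵥ f = 0 := by
        rw [sub_dotProduct, smul_dotProduct, hf, smul_eq_mul]; ring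
      refine ⟨T f (ψ0 - (ψ0 ⬝ᵥ f) • φ), ?_⟩
      rw [T_vecMul_inv h1, hf, sub_dotProduct, smul_dotProduct, sub_dotProduct, smul_dotProduct, hc,
        hψ0]
      simp
    · refine ⟨1, ?_⟩
      rw [inv_one]
      show (φ ᵥ* (1 : Mt m F)) ⬝ᵥ u ≠ 0
      rwa [vecMul_one]
  obtain ⟨g, hg⟩ := hex
  obtain ⟨g', hg', hg2⟩ := Pool.Agent.R167.SY.t_CH F (SL m F) (Fin (m + 1) → F) repD S hS φ
    (dotProductEquiv F (Fin (m + 1)) u) g (by
      rw [repD_apply, dotProductEquiv_apply_apply, dotProduct_comm]; exact hg)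
  rw [repD_apply, dotProductEquiv_apply_apply, dotProduct_comm] at hg2
  rw [Module.finrank_fin_fun] at hg'
  exact ⟨g', hg', hg2⟩

/-- the short functionals -/
def Om (S : Set (SL m F)) (φ : Fin (m + 1) → F) : Set (Fin (m + 1) → F) :=
  {ω | ∃ g ∈ Ball S (m + 1), ω = φ ᵥ* (g⁻¹).1}

theorem Om_span {S : Set (SL m F)} (hS : Subgroup.closure S = ⊤) {φ : Fin (m + 1) → F}
    (hφ : φ ≠ 0) (ψ : Fin (m + 1) → F) : ψ ∈ Submodule.span F (Om S φ) := by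
  by_contra hcon
  obtain ⟨ℓ, hℓ, hℓ2⟩ := Submodule.exists_dual_map_eq_bot_of_notMem hcon inferInstance
  obtain ⟨u, rfl⟩ := (dotProductEquiv F (Fin (m + 1))).surjective ℓ
  simp only [dotProductEquiv_apply_apply] at hℓ
  have hu : u ≠ 0 := by
    rintro rfl
    exact hℓ (zero_dotProduct _)
  obtain ⟨g, hg, hg2⟩ := exists_short hS hφ hu
  apply hg2
  have h1 : (dotProductEquiv F (Fin (m + 1)) u) (φ ᵥ* (g⁻¹).1) ∈
      (Submodule.span F (Om S φ)).map (dotProductEquiv F (Fin (m + 1)) u) :=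
    Submodule.mem_map_of_mem (Submodule.subset_span ⟨g, hg, rfl⟩)
  rw [hℓ2, Submodule.mem_bot, dotProductEquiv_apply_apply, dotProduct_comm] at h1
  exact h1

theorem Om_R {S : Set (SL m F)} {φ : Fin (m + 1) → F} {L : ℕ}
    (hA : ∀ v, φ ⬝ᵥ v = 0 → R S L v φ) {ω : Fin (m + 1) → F} (hω : ω ∈ Om S φ)
    (v : Fin (m + 1) → F) (hv : ω ⬝ᵥ v = 0) : R S (L + 2 * (m + 1)) v ω := by
  obtain ⟨g, hg, rfl⟩ := hω
  have h1 : g.1 *ᵥ ((g⁻¹).1 *ᵥ v) = v := by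
    rw [mulVec_mulVec]
    have : g.1 * (g⁻¹).1 = 1 := congrArg Subtype.val (mul_inv_cancel g)
    rw [this, one_mulVec]
  have h2 := (hA ((g⁻¹).1 *ᵥ v) (by rw [dotProduct_mulVec]; exact hv)).conj hg
  rwa [h1] at h2

theorem Om_pair {S : Set (SL m F)} {φ : Fin (m + 1) → F} {L : ℕ}
    (hA : ∀ ω ∈ Om S φ, ∀ v, ω ⬝ᵥ v = 0 → R S L v ω) {ω ω' : Fin (m + 1) → F} (hω : ω ∈ Om S φ)
    (hω' : ω' ∈ Om S φ) (v : Fin (m + 1) → F) (hv : ω' ⬝ᵥ v ≠ 0) :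
    R S (3 * L) v (ω - (ω ⬝ᵥ v / ω' ⬝ᵥ v) • ω') := by
  by_cases hc : ∀ w, ω' ⬝ᵥ w = 0 → ω ⬝ᵥ w = 0
  · have h1 : ω - (ω ⬝ᵥ v / ω' ⬝ᵥ v) • ω' = 0 := by
      apply dotProduct_eq_zero
      intro u
      have h2 := hc (u - (ω' ⬝ᵥ u / ω' ⬝ᵥ v) • v) (by
        rw [dotProduct_sub, dotProduct_smul, smul_eq_mul, div_mul_cancel₀ _ hv, sub_self])
      rw [dotProduct_sub, dotProduct_smul, smul_eq_mul] at h2
      rw [sub_dotProduct, smul_dotProduct, smul_eq_mul, ← h2]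
      ring
    rw [h1]
    exact R_zero_right _ _
  · push Not at hc
    obtain ⟨w0, hw0, hw1⟩ := hc
    set w := (ω ⬝ᵥ w0)⁻¹ • w0 with hw
    have h1 : ω' ⬝ᵥ w = 0 := by rw [hw, dotProduct_smul, hw0, smul_zero]
    have h2 : ω ⬝ᵥ w = 1 := by rw [hw, dotProduct_smul, smul_eq_mul, inv_mul_cancel₀ hw1]
    set c := ω ⬝ᵥ v / ω' ⬝ᵥ v with hcdef
    have h3 : ω ⬝ᵥ (v - (ω ⬝ᵥ v) • w) = 0 := by
      rw [dotProduct_sub, dotProduct_smul, h2, smul_eq_mul, mul_one, sub_self]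
    have h4 := (hA ω hω (v - (ω ⬝ᵥ v) • w) h3).tconj h1 (hA ω' hω' w h1) c
    have h5 : c * (ω' ⬝ᵥ (v - (ω ⬝ᵥ v) • w)) = ω ⬝ᵥ v := by
      rw [dotProduct_sub, dotProduct_smul, h1, smul_zero, sub_zero, hcdef, div_mul_cancel₀ _ hv]
    rw [h5, sub_add_cancel, h2, mul_one] at h4
    exact R.mono (by omega) h4

/-- ALL -/
theorem all {S : Set (SL m F)} (hS : Subgroup.closure S = ⊤) {φ : Fin (m + 1) → F}
    (hφ : φ ≠ 0) {L : ℕ} (hA : ∀ v, φ ⬝ᵥ v = 0 → R S L v φ) (v ψ : Fin (m + 1) → F)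
    (hv : ψ ⬝ᵥ v = 0) : R S ((m + 1) * (3 * (L + 2 * (m + 1)))) v ψ := by
  by_cases hv0 : v = 0
  · rw [hv0]
    exact R_zero_left _ _
  obtain ⟨g, hg, hg2⟩ := exists_short hS hφ hv0
  set ω' := φ ᵥ* (g⁻¹).1 with hω'
  have hωm : ω' ∈ Om S φ := ⟨g, hg, rfl⟩
  obtain ⟨b, c, hb, hbA, hψ⟩ := span_finset (Om S φ) ψ (Om_span hS hφ ψ)
  have h1 := R_sum_right (S := S) (3 * (L + 2 * (m + 1))) v b
    (fun ω => ω - (ω ⬝ᵥ v / ω' ⬝ᵥ v) • ω') (by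
      intro x hx
      refine ⟨Om_pair (fun ω hω v hv => Om_R hA hω v hv) (hbA x hx) hωm v hg2, ?_⟩
      rw [sub_dotProduct, smul_dotProduct, smul_eq_mul, div_mul_cancel₀ _ hg2, sub_self]) c
  have h2 : ∑ ω ∈ b, c ω • (ω - (ω ⬝ᵥ v / ω' ⬝ᵥ v) • ω') = ψ := by
    have h3 : ∑ ω ∈ b, c ω * (ω ⬝ᵥ v) = 0 := by
      rw [← hv, hψ, sum_dotProduct]
      exact Finset.sum_congr rfl fun i _ => by rw [smul_dotProduct, smul_eq_mul]
    have h4 : ∀ ω ∈ b, c ω • (ω - (ω ⬝ᵥ v / ω' ⬝ᵥ v) • ω') =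
        c ω • ω - (c ω * (ω ⬝ᵥ v)) • ((ω' ⬝ᵥ v)⁻¹ • ω') := by
      intro ω _
      rw [smul_sub, smul_smul, smul_smul]
      congr 2
      rw [div_eq_mul_inv]
      ring
    rw [Finset.sum_congr rfl h4, Finset.sum_sub_distrib, ← Finset.sum_smul, h3, zero_smul, sub_zero,
      ← hψ]
  rw [h2] at h1
  refine R.mono ?_ h1.1
  apply Nat.mul_le_mul_right
  simpa using hb

/-- every element is a short word -/
theorem main {S : Set (SL m F)} {e φ : Fin (m + 1) → F} (h4 : ∃ s : Finset F, s.card = 4)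
    (he : e ≠ 0) (hφ : φ ≠ 0) (h : φ ⬝ᵥ e = 0) (hS : Inv S e φ) (g : SL m F) :
    g ∈ Ball S (341 * (m + 1) ^ 6) := by
  have hX := torus h4 he hφ h hS
  obtain ⟨w, hw, hp, hp'⟩ := exists_gen hS.1 he hφ h
  have hY := hX.conj hw
  have hA := axis hS.1 h (by rw [pair_conj, h]) hp hp' hX hY
  have hAll := all hS.1 hφ hA
  obtain ⟨l, hl, hT, rfl⟩ := Pool.Agent.R167.HG.t_GAUSS F m g
  have key : ∀ x ∈ l, x ∈ Ball S ((m + 1) * (3 * ((m + 1) * (8 * (8 * (m + 1) ^ 2) +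
      4 * (m + 1) ^ 3 + 4 * (8 * (m + 1) ^ 2 + 2 * (m + 1) ^ 2)) + 2 * (m + 1)))) := by
    intro x hx
    obtain ⟨f, ψ, hx, hd, -⟩ := hT x hx
    have h1 := hAll f ψ hd 1
    rwa [one_smul, ← T_eq hd hx] at h1
  refine ball_mono ?_ (ball_list l key)
  have hm : 1 ≤ m := by
    rcases Nat.eq_zero_or_pos m with rfl | hm
    · exfalso
      have h1 : φ 0 * e 0 = 0 := by simpa [dotProduct] using h
      have hi : ∀ i : Fin (0 + 1), i = 0 := fun i => Fin.ext (by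
        have := i.isLt
        rw [Fin.val_zero]
        omega)
      rcases mul_eq_zero.1 h1 with h2 | h2
      · exact hφ (funext fun i => by rw [hi i, h2]; rfl)
      · exact he (funext fun i => by rw [hi i, h2]; rfl)
    · exact hm
  obtain ⟨k, rfl⟩ : ∃ k, m = k + 1 := ⟨m - 1, by omega⟩
  refine (Nat.mul_le_mul_right _ hl).trans ?_
  ring_nf
  omega

end Run7.h806.TV
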