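import Pool.Agent.Run7.h806.TV.Comm

/-!
# Asymptotic form
-/

set_option autoImplicit false

namespace Run7.h806.TV

open Matrix
open Pool.Agent.R167.HG (Ball SL Mt PSL)
open Pool.Agent.R167.HG.MainP

/-- polynomially bounded in `m + 1` -/
def PB (f : ℕ → ℕ) : Prop := ∃ C : ℕ, ∀ m : ℕ, 1 ≤ m → f m ≤ (m + 1) ^ C

theorem PB_const (c : ℕ) : PB fun _ => c := by
  refine ⟨c, fun m hm => ?_⟩
  calc c ≤ 2 ^ c := Nat.lt_two_pow_self.le
    _ ≤ (m + 1) ^ c := Nat.pow_le_pow_left (by omega) _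

theorem PB_id : PB fun m => m + 1 := ⟨1, fun m _ => by rw [pow_one]⟩

theorem PB.mul {f g : ℕ → ℕ} (hf : PB f) (hg : PB g) : PB fun m => f m * g m := by
  obtain ⟨a, ha⟩ := hf
  obtain ⟨b, hb⟩ := hg
  exact ⟨a + b, fun m hm => by rw [pow_add]; exact Nat.mul_le_mul (ha m hm) (hb m hm)⟩

theorem PB.add {f g : ℕ → ℕ} (hf : PB f) (hg : PB g) : PB fun m => f m + g m := by
  obtain ⟨a, ha⟩ := hf
  obtain ⟨b, hb⟩ := hg
  refine ⟨a + b + 1, fun m hm => ?_⟩
  have h1 : f m ≤ (m + 1) ^ (a + b) :=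
    (ha m hm).trans (Nat.pow_le_pow_right (by omega) (by omega))
  have h2 : g m ≤ (m + 1) ^ (a + b) :=
    (hb m hm).trans (Nat.pow_le_pow_right (by omega) (by omega))
  calc f m + g m ≤ (m + 1) ^ (a + b) * 2 := by omega
    _ ≤ (m + 1) ^ (a + b) * (m + 1) := Nat.mul_le_mul_left _ (by omega)
    _ = (m + 1) ^ (a + b + 1) := (pow_succ _ _).symm

theorem PB.pow {f : ℕ → ℕ} (hf : PB f) (e : ℕ) : PB fun m => f m ^ e := by
  obtain ⟨a, ha⟩ := hf
  exact ⟨a * e, fun m hm => by rw [pow_mul]; exact Nat.pow_le_pow_left (ha m hm) _⟩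

/-- the bound for an element of support `r` -/
def b2 (m p k r : ℕ) : ℕ := b1 m p k (4 * D2 m p k r + 4)

theorem PB_b2 (p k r : ℕ) : PB fun m => b2 m p k r := by
  have hD : PB fun m => DD m p k :=
    ((PB_const 1).add ((PB_const k).mul (PB_id.pow 2))).pow _
  have hD2 : PB fun m => D2 m p k r :=
    ((PB_const 1).add ((PB_const (2 * k)).mul (PB_id.pow 2))).pow _
  exact ((PB_const 12).mul (PB_id.pow 2)).mul (((PB_id.mul (PB_const k)).mul
    ((PB_const (p / 2)).mul (((PB_const 4).mul hD).add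
      ((PB_const 4).mul (((PB_const 4).mul hD2).add (PB_const 4)))))).add
        ((PB_const 2).mul PB_id))

theorem b2_mono (m p k : ℕ) {r s : ℕ} (h : r ≤ s) : b2 m p k r ≤ b2 m p k s := by
  have h1 : D2 m p k r ≤ D2 m p k s := by
    unfold D2
    apply Nat.pow_le_pow_right (by positivity)
    gcongr
  unfold b2 b1
  gcongr

variable {m : ℕ} {F : Type} [Field F]

/-- quotients, elements of small support -/
theorem supp_quot {p k : ℕ} (hp : p.Prime) [CharP F p] [Finite F]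
    (hk : Nat.card F = p ^ k) {Q : Type} [Group Q] (π : SL m F →* Q)
    (hπ : Function.Surjective π) {S : Set Q} (hS : Subgroup.closure S = ⊤) {x : SL m F}
    (hx : π x ∈ S) (c : F) (hc : x.1 ≠ c • (1 : Mt m F))
    (hn : 3 * (x.1 - c • (1 : Mt m F)).rank ≤ m) (y : Q) :
    y ∈ Ball S (b2 m p k (x.1 - c • (1 : Mt m F)).rank) := by
  set r := (x.1 - c • (1 : Mt m F)).rank with hr
  have hr0 : 0 < r := by
    rw [Nat.pos_iff_ne_zero]
    intro h0
    apply hc
    have h1 : Module.finrank F (LinearMap.range (x.1 - c • (1 : Mt m F)).mulVecLin) = 0 := h0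
    rw [Submodule.finrank_eq_zero, LinearMap.range_eq_bot] at h1
    rw [← sub_eq_zero]
    apply Matrix.toLin'.injective
    rw [map_zero]
    exact h1
  have hS' := closure_preimage π hπ S ⟨_, hx⟩ hS
  obtain ⟨e, φ, he, hφ, h, ha⟩ := exists_transvection hp hk hS' (x := x) hx c
    (r := r) rfl hr0 hn
  obtain ⟨g, rfl⟩ := hπ y
  exact ball_map π (fun s hs => hs) (one_transvection hp hk hS' he hφ h (by omega) ha g)

/-- quotients, one transvection -/
theorem one_quot {p k : ℕ} (hp : p.Prime) [CharP F p] [Finite F]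
    (hk : Nat.card F = p ^ k) {Q : Type} [Group Q] (π : SL m F →* Q)
    (hπ : Function.Surjective π) {S : Set Q} (hS : Subgroup.closure S = ⊤)
    {e φ : Fin (m + 1) → F} (he : e ≠ 0) (hφ : φ ≠ 0)
    (h : φ ⬝ᵥ e = 0) (hm : 2 ≤ m) (hx : π (T e φ) ∈ S) (y : Q) :
    y ∈ Ball S (b1 m p k 1) := by
  have hS' := closure_preimage π hπ S ⟨_, hx⟩ hS
  have ha : T e φ ∈ Ball (π ⁻¹' S) 1 := ⟨[T e φ], by simp, by
    intro z hz
    rw [List.mem_singleton.1 hz]
    exact Or.inl hx, by simp⟩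
  obtain ⟨g, rfl⟩ := hπ y
  exact ball_map π (fun s hs => hs) (one_transvection hp hk hS' he hφ h hm ha g)

theorem card_bound (F : Type) [Field F] [Finite F] (m : ℕ) {Q : Type} [Group Q]
    (π : SL m F →* Q) (hπ : Function.Surjective π) {S : Set Q}
    (hS : Subgroup.closure S = ⊤) (y : Q) : y ∈ Ball S (Nat.card F ^ ((m + 1) ^ 2)) := by
  classical
  cases nonempty_fintype F
  have hfs : Finite (SL m F) := Finite.of_injective (fun g : SL m F => g.1) Subtype.val_injective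
  have hfq : Finite Q := Finite.of_surjective π hπ
  have h1 : Nat.card Q ≤ Nat.card (SL m F) := Nat.card_le_card_of_surjective π hπ
  have h2 : Nat.card (SL m F) ≤ Nat.card (Mt m F) :=
    Nat.card_le_card_of_injective (fun g : SL m F => g.1) Subtype.val_injective
  have h3 : Nat.card (Mt m F) = Nat.card F ^ ((m + 1) ^ 2) := by
    rw [Nat.card_eq_fintype_card, Nat.card_eq_fintype_card]
    show Fintype.card (Fin (m + 1) → Fin (m + 1) → F) = _
    rw [Fintype.card_fun, Fintype.card_fun, Fintype.card_fin, ← pow_mul, pow_two]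
  exact ball_mono (h1.trans (h2.trans h3.le)) (ball_card hS y)

/-- bounded support over a fixed finite field -/
theorem bounded_support (F : Type) [Field F] [Finite F] (r : ℕ) : ∃ C : ℕ, ∀ (m : ℕ) (Q : Type)
    [Group Q] (π : SL m F →* Q) (S : Set Q) (x : SL m F) (c : F), 1 ≤ m →
    Function.Surjective π → Subgroup.closure S = ⊤ → π x ∈ S → x.1 ≠ c • (1 : Mt m F) →
    (x.1 - c • (1 : Mt m F)).rank ≤ r → ∀ y : Q, y ∈ Ball S ((m + 1) ^ C) := by
  classical
  cases nonempty_fintype F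
  obtain ⟨p, hcp⟩ := CharP.exists F
  obtain ⟨k, hp, hk⟩ := FiniteField.card F p
  have hk' : Nat.card F = p ^ (k : ℕ) := by rw [Nat.card_eq_fintype_card, hk]
  obtain ⟨C1, hC1⟩ := PB_b2 p k r
  obtain ⟨C2, hC2⟩ := PB_const (Nat.card F ^ ((3 * r + 1) ^ 2))
  refine ⟨C1 + C2, ?_⟩
  intro m Q _ π S x c hm hπ hS hx hc hr y
  by_cases h : 3 * r ≤ m
  · have h1 := supp_quot hp hk' π hπ hS hx c hc (by omega) y
    exact ball_mono (((b2_mono m p k hr).trans (hC1 m hm)).trans
      (Nat.pow_le_pow_right (by omega) (by omega))) h1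
  · have h1 := card_bound F m π hπ hS y
    refine ball_mono ?_ h1
    have h2 : Nat.card F ^ ((m + 1) ^ 2) ≤ Nat.card F ^ ((3 * r + 1) ^ 2) := by
      apply Nat.pow_le_pow_right (Nat.pos_of_ne_zero (Nat.card_pos.ne'))
      exact Nat.pow_le_pow_left (by omega) 2
    exact (h2.trans (hC2 m hm)).trans (Nat.pow_le_pow_right (by omega) (by omega))

theorem le_log (F : Type) [Field F] [Finite F] (m : ℕ) (h : 2 ≤ m ∨ (1 ≤ m ∧ 4 ≤ Nat.card F)) :
    ((m : ℝ) + 1) ≤ Real.log (Nat.card (PSL m F)) := by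
  have hm1 : 1 ≤ m := by omega
  refine le_trans ?_ (psl_log F m hm1)
  rcases log_card F m h with ⟨h1, h2⟩ | ⟨h1, h2⟩
  · have h3 : (2 : ℝ) ≤ (m : ℝ) := by exact_mod_cast h1
    have h4 : (1 : ℝ) ≤ (m : ℝ) * Real.log (Nat.card F) := by nlinarith
    nlinarith
  · have h3 : (1 : ℝ) ≤ (m : ℝ) := by exact_mod_cast h1
    have h4 : (1 : ℝ) ≤ (m : ℝ) * Real.log (Nat.card F) := by nlinarith
    nlinarith

end Run7.h806.TV
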