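import Pool.Agent.Run7.h806.TV.Last

/-!
# One transvection over a finite field: closed conditions by avoiding affine hyperplanes
-/

set_option autoImplicit false

namespace Run7.h806.TV

open Matrix
open Pool.Agent.R167.HG (Ball SL Mt PSL)
open Pool.Agent.R167.HG.MainP

section prod

open TensorProduct

variable {K : Type} [Field K] {G : Type} [Group G]

theorem prod_rep {W0 : Type} [AddCommGroup W0] [Module K W0] [FiniteDimensional K W0]
    (R0 : G →* (W0 →ₗ[K] W0)) (w0 : W0) (l : List (W0 →ₗ[K] K)) :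
    ∃ (W : Type) (_ : AddCommGroup W) (_ : Module K W) (_ : FiniteDimensional K W)
      (R : G →* (W →ₗ[K] W)) (w : W) (Λ : W →ₗ[K] K),
      Module.finrank K W = (Module.finrank K W0) ^ l.length ∧
        ∀ g, Λ (R g w) = (l.map (fun α => α (R0 g w0))).prod := by
  induction l with
  | nil =>
    exact ⟨K, inferInstance, inferInstance, inferInstance, 1, 1, LinearMap.id, by simp,
      fun g => by simp⟩
  | cons α l ih =>
    obtain ⟨W, _, _, _, R, w, Λ, h1, h2⟩ := ih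
    refine ⟨W0 ⊗[K] W, inferInstance, inferInstance, inferInstance,
      { toFun := fun g => TensorProduct.map (R0 g) (R g)
        map_one' := by rw [map_one, map_one, TensorProduct.map_one]
        map_mul' := fun g h => by rw [map_mul, map_mul, TensorProduct.map_mul] },
      w0 ⊗ₜ w, (TensorProduct.lid K K).toLinearMap ∘ₗ TensorProduct.map α Λ, ?_, ?_⟩
    · rw [Module.finrank_tensorProduct, h1, List.length_cons, pow_succ, mul_comm]
    · intro g
      show (TensorProduct.lid K K) (TensorProduct.map α Λ (TensorProduct.map (R0 g) (R g)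
        (w0 ⊗ₜ w))) = _
      rw [TensorProduct.map_tmul, TensorProduct.map_tmul, TensorProduct.lid_tmul, h2,
        List.map_cons, List.prod_cons, smul_eq_mul]

/-- a short word avoids affine hyperplanes -/
theorem avoid {W0 : Type} [AddCommGroup W0] [Module K W0] [FiniteDimensional K W0]
    {S : Set G} (hS : Subgroup.closure S = ⊤) (R0 : G →* (W0 →ₗ[K] W0)) (w0 : W0)
    (l : List (K × (W0 →ₗ[K] K))) (g : G) (hg : ∀ a ∈ l, a.1 + a.2 (R0 g w0) ≠ 0) :
    ∃ h ∈ Ball S ((1 + Module.finrank K W0) ^ l.length), ∀ a ∈ l, a.1 + a.2 (R0 h w0) ≠ 0 := by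
  let R1 : G →* ((K × W0) →ₗ[K] (K × W0)) :=
    { toFun := fun g => LinearMap.prodMap LinearMap.id (R0 g)
      map_one' := by
        apply LinearMap.ext
        rintro ⟨x, y⟩
        simp
      map_mul' := fun g h => by
        apply LinearMap.ext
        rintro ⟨x, y⟩
        simp }
  have hR1 : ∀ g, R1 g (1, w0) = (1, R0 g w0) := fun g => rfl
  let Fn : K × (W0 →ₗ[K] K) → ((K × W0) →ₗ[K] K) := fun a =>
    a.1 • LinearMap.fst K K W0 + a.2 ∘ₗ LinearMap.snd K K W0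
  have hFn : ∀ a y, Fn a (1, y) = a.1 + a.2 y := by
    intro a y
    show a.1 • (1 : K) + a.2 y = _
    rw [smul_eq_mul, mul_one]
  obtain ⟨W, _, _, _, R, w, Λ, h1, h2⟩ := prod_rep R1 ((1, w0) : K × W0) (l.map Fn)
  have h3 : ∀ g, Λ (R g w) = (l.map (fun a => a.1 + a.2 (R0 g w0))).prod := by
    intro g
    rw [h2, List.map_map]
    congr 1
    apply List.map_congr_left
    intro a _
    show Fn a (R1 g (1, w0)) = _
    rw [hR1, hFn]
  obtain ⟨h, hh, hh2⟩ := Pool.Agent.R167.SY.t_CH K G W R S hS w Λ g (by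
    rw [h3]
    apply List.prod_ne_zero
    intro h0
    rw [List.mem_map] at h0
    obtain ⟨a, ha, ha0⟩ := h0
    exact hg a ha ha0)
  refine ⟨h, ?_, ?_⟩
  · rw [h1, List.length_map, Module.finrank_prod, Module.finrank_self] at hh
    exact hh
  · intro a ha h0
    apply hh2
    rw [h3]
    apply List.prod_eq_zero
    rw [List.mem_map]
    exact ⟨a, ha, h0⟩

end prod

variable {m : ℕ} {F : Type} [Field F]

theorem exists_sep {x y : Fin (m + 1) → F} (h : x ∉ Submodule.span F {y}) :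
    ∃ ρ : Fin (m + 1) → F, ρ ⬝ᵥ x = 1 ∧ ρ ⬝ᵥ y = 0 := by
  obtain ⟨ℓ, hℓ, hℓ2⟩ := Submodule.exists_dual_map_eq_bot_of_notMem h inferInstance
  obtain ⟨χ, rfl⟩ := (dotProductEquiv F (Fin (m + 1))).surjective ℓ
  rw [dotProductEquiv_apply_apply] at hℓ
  have hχe : χ ⬝ᵥ y = 0 := by
    have h1 : (dotProductEquiv F (Fin (m + 1)) χ) y ∈
        (Submodule.span F {y}).map (dotProductEquiv F (Fin (m + 1)) χ) :=
      Submodule.mem_map_of_mem (Submodule.mem_span_singleton_self y)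
    rw [hℓ2, Submodule.mem_bot, dotProductEquiv_apply_apply] at h1
    exact h1
  refine ⟨(χ ⬝ᵥ x)⁻¹ • χ, ?_, ?_⟩
  · rw [smul_dotProduct, smul_eq_mul, inv_mul_cancel₀ hℓ]
  · rw [smul_dotProduct, hχe, smul_zero]

theorem exists_out {e φ : Fin (m + 1) → F} (he : e ≠ 0) (hm : 2 ≤ m) :
    ∃ w : Fin (m + 1) → F, φ ⬝ᵥ w = 0 ∧ w ∉ Submodule.span F {e} := by
  by_contra hcon
  push Not at hcon
  have h1 : LinearMap.ker (dotProductEquiv F (Fin (m + 1)) φ) ≤ Submodule.span F {e} := by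
    intro w hw
    rw [LinearMap.mem_ker, dotProductEquiv_apply_apply] at hw
    exact hcon w hw
  have h2 := Submodule.finrank_mono h1
  have h3 := LinearMap.finrank_range_add_finrank_ker (dotProductEquiv F (Fin (m + 1)) φ)
  have h4 : Module.finrank F (LinearMap.range (dotProductEquiv F (Fin (m + 1)) φ)) ≤ 1 := by
    refine (Submodule.finrank_le _).trans ?_
    rw [Module.finrank_self]
  have h5 : Module.finrank F (Submodule.span F {e}) ≤ 1 := (finrank_span_singleton he).le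
  rw [Module.finrank_fin_fun] at h3
  omega

/-- an element of `SL_n(F)` which maps `e` to `u` -/
theorem exists_g {e φ u : Fin (m + 1) → F} (he : e ≠ 0) (hφ : φ ≠ 0) (h : φ ⬝ᵥ e = 0)
    (hu : φ ⬝ᵥ u = 0) (hue : u ∉ Submodule.span F {e}) :
    ∃ g : SL m F, g.1 *ᵥ e = u ∧ (φ ᵥ* (g⁻¹).1) ⬝ᵥ e = 1 := by
  have heu : e ∉ Submodule.span F {u} := by
    intro h1
    rw [Submodule.mem_span_singleton] at h1
    obtain ⟨c, hc⟩ := h1
    have hc0 : c ≠ 0 := by
      rintro rfl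
      rw [zero_smul] at hc
      exact he hc.symm
    apply hue
    rw [Submodule.mem_span_singleton]
    exact ⟨c⁻¹, by rw [← hc, smul_smul, inv_mul_cancel₀ hc0, one_smul]⟩
  obtain ⟨ρ, ρ1, ρ2⟩ := exists_sep heu
  obtain ⟨σ, σ1, σ2⟩ := exists_sep hue
  obtain ⟨f, hf⟩ := exists_dot_eq_one hφ
  rw [dotProduct_comm] at hf
  set η := ρ + σ with hη
  set θ := - ρ + (ρ ⬝ᵥ f) • φ with hθ
  have η1 : η ⬝ᵥ (u - e) = 0 := by
    rw [hη, add_dotProduct, dotProduct_sub, dotProduct_sub, ρ1, ρ2, σ1, σ2]; ring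
  have η2 : η ⬝ᵥ e = 1 := by rw [hη, add_dotProduct, ρ1, σ2, add_zero]
  have θ1 : θ ⬝ᵥ f = 0 := by
    rw [hθ, add_dotProduct, neg_dotProduct, smul_dotProduct, hf, smul_eq_mul]; ring
  have θ2 : θ ⬝ᵥ u = 0 := by
    rw [hθ, add_dotProduct, neg_dotProduct, smul_dotProduct, hu, ρ2, smul_zero]; ring
  have θ3 : θ ⬝ᵥ e = -1 := by
    rw [hθ, add_dotProduct, neg_dotProduct, smul_dotProduct, h, ρ1, smul_zero]; ring
  refine ⟨T f θ * T (u - e) η, ?_, ?_⟩
  · show ((T f θ).1 * (T (u - e) η).1) *ᵥ e = _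
    rw [← mulVec_mulVec, T_mulVec η1, η2, one_smul, add_sub_cancel, T_mulVec θ1, θ2, zero_smul,
      add_zero]
  · have : ((T f θ * T (u - e) η)⁻¹).1 = ((T (u - e) η)⁻¹).1 * ((T f θ)⁻¹).1 := by
      rw [_root_.mul_inv_rev]; rfl
    rw [this, ← vecMul_vecMul, T_vecMul_inv η1, dotProduct_sub, hu, h, sub_zero, zero_smul,
      sub_zero, T_vecMul_inv θ1, hf, one_smul, sub_dotProduct, h, θ3]
    ring

section fin

variable {p : ℕ} [Fact p.Prime] [Algebra (ZMod p) F] [Finite F]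

/-- conjugation, over the prime field -/
def rep0 (p : ℕ) [Fact p.Prime] (m : ℕ) (F : Type) [Field F] [Algebra (ZMod p) F] :
    SL m F →* (Mt m F →ₗ[ZMod p] Mt m F) where
  toFun g :=
    { toFun := fun X => g.1 * X * (g⁻¹).1
      map_add' := fun X Y => by rw [Matrix.mul_add, Matrix.add_mul]
      map_smul' := fun c X => by rw [Matrix.mul_smul, Matrix.smul_mul]; rfl }
  map_one' := by
    apply LinearMap.ext
    intro X
    show (1 : Mt m F) * X * ((1 : SL m F)⁻¹).1 = X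
    rw [inv_one, Matrix.one_mul]
    exact Matrix.mul_one X
  map_mul' g h := by
    apply LinearMap.ext
    intro X
    show (g.1 * h.1) * X * ((g * h)⁻¹).1 = g.1 * (h.1 * X * (h⁻¹).1) * (g⁻¹).1
    rw [_root_.mul_inv_rev]
    show _ * ((h⁻¹).1 * (g⁻¹).1) = _
    simp only [Matrix.mul_assoc]

/-- the value at a vector, over the prime field -/
def ev0 (p : ℕ) [Fact p.Prime] {m : ℕ} {F : Type} [Field F] [Algebra (ZMod p) F]
    (e : Fin (m + 1) → F) : Mt m F →ₗ[ZMod p] (Fin (m + 1) → F) where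
  toFun X := X *ᵥ e
  map_add' X Y := add_mulVec _ _ _
  map_smul' c X := smul_mulVec _ _ _

/-- a form, over the prime field -/
def dt0 (p : ℕ) [Fact p.Prime] {m : ℕ} {F : Type} [Field F] [Algebra (ZMod p) F]
    (φ : Fin (m + 1) → F) : (Fin (m + 1) → F) →ₗ[ZMod p] F where
  toFun v := φ ⬝ᵥ v
  map_add' x y := dotProduct_add _ _ _
  map_smul' c x := dotProduct_smul _ _ _

/-- the length of the word -/
def DD (m p k : ℕ) : ℕ := (1 + k * (m + 1) ^ 2) ^ (k * (p - 1) + 1)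

theorem exists_closed {k : ℕ} (hk : Module.finrank (ZMod p) F = k) {S : Set (SL m F)}
    (hS : Subgroup.closure S = ⊤) {e φ : Fin (m + 1) → F} (he : e ≠ 0) (hφ : φ ≠ 0)
    (h : φ ⬝ᵥ e = 0) (hm : 2 ≤ m) (ℓ : (Fin (m + 1) → F) →ₗ[ZMod p] ZMod p)
    {v : Fin (m + 1) → F} (hv : φ ⬝ᵥ v = 0) (hℓ : ℓ v ≠ 0) :
    ∃ g ∈ Ball S (DD m p k), φ ⬝ᵥ (g.1 *ᵥ e) = 0 ∧
      ℓ (((φ ᵥ* (g⁻¹).1) ⬝ᵥ e) • (g.1 *ᵥ e)) ≠ 0 := by
  classical
  haveI : Module.Finite (ZMod p) F := Module.Finite.of_finite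
  -- a vector outside of the line of `e`
  have hu : ∃ u : Fin (m + 1) → F, φ ⬝ᵥ u = 0 ∧ u ∉ Submodule.span F {e} ∧ ℓ u ≠ 0 := by
    by_cases hve : v ∈ Submodule.span F {e}
    · obtain ⟨w, hw, hwe⟩ := exists_out (φ := φ) he hm
      by_cases hℓw : ℓ w = 0
      · refine ⟨v + w, by rw [dotProduct_add, hv, hw, add_zero], ?_, by
          rw [map_add, hℓw, add_zero]; exact hℓ⟩
        intro h1
        apply hwe
        have := Submodule.sub_mem _ h1 hve
        rwa [add_sub_cancel_left] at this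
      · exact ⟨w, hw, hwe, hℓw⟩
    · exact ⟨v, hv, hve, hℓ⟩
  obtain ⟨u, hu, hue, hℓu⟩ := hu
  obtain ⟨g0, hg0, hg1⟩ := exists_g he hφ h hu hue
  have hE : ∀ g : SL m F, ev0 p e (rep0 p m F g (vecMulVec e φ)) =
      ((φ ᵥ* (g⁻¹).1) ⬝ᵥ e) • (g.1 *ᵥ e) := by
    intro g
    show (g.1 * vecMulVec e φ * (g⁻¹).1) *ᵥ e = _
    rw [mul_vecMulVec, vecMulVec_mul, vecMulVec_mulVec, op_smul_eq_smul]
  set b := Module.finBasis (ZMod p) F with hb
  let l : List (ZMod p × (Mt m F →ₗ[ZMod p] ZMod p)) :=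
    (0, ℓ ∘ₗ ev0 p e) :: ((Finset.univ : Finset (Fin (Module.finrank (ZMod p) F) ×
      (ZMod p)ˣ)).toList.map fun x =>
        (-(x.2 : ZMod p), (b.coord x.1 ∘ₗ dt0 p φ) ∘ₗ ev0 p e))
  have hl : l.length = k * (p - 1) + 1 := by
    show (_ :: _ : List _).length = _
    rw [List.length_cons, List.length_map, Finset.length_toList, Finset.card_univ,
      Fintype.card_prod, Fintype.card_fin, ZMod.card_units, hk]
  obtain ⟨g, hg, hg2⟩ := avoid hS (rep0 p m F) (vecMulVec e φ) l g0 (by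
    intro a ha
    rcases List.mem_cons.1 ha with rfl | ha
    · show (0 : ZMod p) + ℓ (ev0 p e (rep0 p m F g0 (vecMulVec e φ))) ≠ 0
      rw [hE, hg0, hg1, one_smul, zero_add]
      exact hℓu
    · rw [List.mem_map] at ha
      obtain ⟨x, -, rfl⟩ := ha
      show -(x.2 : ZMod p) + b.coord x.1 (φ ⬝ᵥ (ev0 p e (rep0 p m F g0 (vecMulVec e φ)))) ≠ 0
      rw [hE, hg0, hg1, one_smul, hu, map_zero, add_zero]
      exact neg_ne_zero.2 x.2.ne_zero)
  have h0 : ℓ (((φ ᵥ* (g⁻¹).1) ⬝ᵥ e) • (g.1 *ᵥ e)) ≠ 0 := by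
    have := hg2 (0, ℓ ∘ₗ ev0 p e) List.mem_cons_self
    change (0 : ZMod p) + ℓ (ev0 p e (rep0 p m F g (vecMulVec e φ))) ≠ 0 at this
    rwa [hE, zero_add] at this
  refine ⟨g, ?_, ?_, h0⟩
  · rw [hl, Module.finrank_matrix, Fintype.card_fin, hk] at hg
    refine ball_mono (le_of_eq ?_) hg
    unfold DD
    congr 1
    ring
  · have hy : φ ⬝ᵥ (((φ ᵥ* (g⁻¹).1) ⬝ᵥ e) • (g.1 *ᵥ e)) = 0 := by
      rw [← b.forall_coord_eq_zero_iff]
      intro i
      by_contra hc
      have := hg2 (-(b.coord i (φ ⬝ᵥ (((φ ᵥ* (g⁻¹).1) ⬝ᵥ e) • (g.1 *ᵥ e)))),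
        (b.coord i ∘ₗ dt0 p φ) ∘ₗ ev0 p e) (List.mem_cons_of_mem _ (by
          rw [List.mem_map]
          exact ⟨(i, Units.mk0 _ hc), by simp, rfl⟩))
      apply this
      show -(b.coord i _) + b.coord i (φ ⬝ᵥ (ev0 p e (rep0 p m F g (vecMulVec e φ)))) = 0
      rw [hE]
      ring
    rw [dotProduct_smul, smul_eq_mul] at hy
    rcases mul_eq_zero.1 hy with h1 | h1
    · exfalso
      apply h0
      rw [h1, zero_smul, map_zero]
    · exact h1

end fin

end Run7.h806.TV
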