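import Pool.Agent.Run7.h806.TV.Torus

/-!
# All transvections with a given axis
-/

set_option autoImplicit false

namespace Run7.h806.TV

open Matrix
open scoped Kronecker
open Pool.Agent.R167.HG (Ball SL Mt)
open Pool.Agent.R167.HG.MainP

variable {m : ℕ} {F : Type} [Field F]

/-- index set of the tensor square -/
abbrev I2 (m : ℕ) := Fin (m + 1) × Fin (m + 1)

/-- the tensor product of two vectors -/
def ten (a b : Fin (m + 1) → F) : I2 m → F := fun p => a p.1 * b p.2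

theorem ten_dot (a b c d : Fin (m + 1) → F) : ten a b ⬝ᵥ ten c d = (a ⬝ᵥ c) * (b ⬝ᵥ d) := by
  simp only [ten, dotProduct, Fintype.sum_prod_type, Finset.sum_mul_sum]
  exact Finset.sum_congr rfl fun i _ => Finset.sum_congr rfl fun j _ => by ring

theorem kron_mulVec (A B : Mt m F) (a b : Fin (m + 1) → F) :
    (A ⊗ₖ B) *ᵥ ten a b = ten (A *ᵥ a) (B *ᵥ b) := by
  ext ⟨i, j⟩
  simp only [ten, mulVec, dotProduct, Fintype.sum_prod_type, Finset.sum_mul_sum,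
    kroneckerMap_apply]
  exact Finset.sum_congr rfl fun i _ => Finset.sum_congr rfl fun j _ => by ring

/-- the representation on `V ⊗ V ⊗ V*` -/
def rep3 : SL m F →* (Matrix (I2 m) (Fin (m + 1)) F →ₗ[F] Matrix (I2 m) (Fin (m + 1)) F) where
  toFun g :=
    { toFun := fun M => (g.1 ⊗ₖ g.1) * M * (g⁻¹).1
      map_add' := fun X Y => by rw [Matrix.mul_add, Matrix.add_mul]
      map_smul' := fun c X => by rw [Matrix.mul_smul, Matrix.smul_mul]; rfl }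
  map_one' := by
    apply LinearMap.ext
    intro M
    show ((1 : Mt m F) ⊗ₖ (1 : Mt m F)) * M * ((1 : SL m F)⁻¹).1 = M
    rw [one_kronecker_one, Matrix.one_mul, inv_one]
    exact Matrix.mul_one M
  map_mul' g h := by
    apply LinearMap.ext
    intro M
    show ((g.1 * h.1) ⊗ₖ (g.1 * h.1)) * M * ((g * h)⁻¹).1 =
      (g.1 ⊗ₖ g.1) * ((h.1 ⊗ₖ h.1) * M * (h⁻¹).1) * (g⁻¹).1
    rw [mul_kronecker_mul, _root_.mul_inv_rev]
    show _ * _ * M * ((h⁻¹).1 * (g⁻¹).1) = _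
    simp only [Matrix.mul_assoc]

theorem rep3_apply (g : SL m F) (M : Matrix (I2 m) (Fin (m + 1)) F) :
    rep3 g M = (g.1 ⊗ₖ g.1) * M * (g⁻¹).1 := rfl

/-- the functional `M ↦ a (M e) + b (M f)` -/
def lam3 (a b : I2 m → F) (e f : Fin (m + 1) → F) : Matrix (I2 m) (Fin (m + 1)) F →ₗ[F] F where
  toFun M := a ⬝ᵥ (M *ᵥ e) + b ⬝ᵥ (M *ᵥ f)
  map_add' M N := by rw [add_mulVec, add_mulVec, dotProduct_add, dotProduct_add]; ring
  map_smul' c M := by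
    rw [smul_mulVec, smul_mulVec, dotProduct_smul, dotProduct_smul, RingHom.id_apply, smul_add]

theorem exists_gen3 {S : Set (SL m F)} (hS : Subgroup.closure S = ⊤)
    {e φ f ψ μ : Fin (m + 1) → F} (h : φ ⬝ᵥ e = 0) (hψf : ψ ⬝ᵥ f = 0) (hp : φ ⬝ᵥ f ≠ 0)
    (hp' : ψ ⬝ᵥ e ≠ 0) (hμe : μ ⬝ᵥ e = 0) (hμf : μ ⬝ᵥ f = 0) (hμ : μ ≠ 0) :
    ∃ g ∈ Ball S ((m + 1) ^ 3), μ ⬝ᵥ (g.1 *ᵥ e) ≠ 0 ∧
      (φ ⬝ᵥ f) * ((ψ ⬝ᵥ (g.1 *ᵥ e)) * ((φ ᵥ* (g⁻¹).1) ⬝ᵥ e)) +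
        (ψ ⬝ᵥ e) * ((φ ⬝ᵥ (g.1 *ᵥ e)) * ((φ ᵥ* (g⁻¹).1) ⬝ᵥ f)) ≠ 0 := by
  set p := φ ⬝ᵥ f with hpdef
  set p' := ψ ⬝ᵥ e with hp'def
  have key : ∀ g : SL m F, lam3 (p • ten μ ψ) (p' • ten μ φ) e f
      (rep3 g (vecMulVec (ten e e) φ)) =
      (μ ⬝ᵥ (g.1 *ᵥ e)) * (p * ((ψ ⬝ᵥ (g.1 *ᵥ e)) * ((φ ᵥ* (g⁻¹).1) ⬝ᵥ e)) +
        p' * ((φ ⬝ᵥ (g.1 *ᵥ e)) * ((φ ᵥ* (g⁻¹).1) ⬝ᵥ f))) := by
    intro g
    rw [rep3_apply, mul_vecMulVec, vecMulVec_mul, kron_mulVec]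
    show (p • ten μ ψ) ⬝ᵥ ((vecMulVec _ _) *ᵥ e) + (p' • ten μ φ) ⬝ᵥ ((vecMulVec _ _) *ᵥ f) = _
    rw [vecMulVec_mulVec, vecMulVec_mulVec]
    simp only [dotProduct_smul, smul_dotProduct, op_smul_eq_smul, smul_eq_mul, ten_dot]
    ring
  obtain ⟨u, hu⟩ := exists_dot_eq_one hμ
  rw [dotProduct_comm] at hu
  set k : Fin (m + 1) → F := u - ((φ ⬝ᵥ u) / p) • f - ((ψ ⬝ᵥ u) / p') • e with hk
  have k1 : μ ⬝ᵥ k = 1 := by
    rw [hk, dotProduct_sub, dotProduct_sub, dotProduct_smul, dotProduct_smul, hμe, hμf, hu]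
    simp
  have k2 : φ ⬝ᵥ k = 0 := by
    rw [hk, dotProduct_sub, dotProduct_sub, dotProduct_smul, dotProduct_smul, h, ← hpdef,
      smul_eq_mul, smul_zero, div_mul_cancel₀ _ hp]
    simp
  have k3 : ψ ⬝ᵥ k = 0 := by
    rw [hk, dotProduct_sub, dotProduct_sub, dotProduct_smul, dotProduct_smul, hψf, ← hp'def,
      smul_eq_mul, smul_eq_mul, div_mul_cancel₀ _ hp']
    simp
  set η : Fin (m + 1) → F := p'⁻¹ • ψ with hη
  have η1 : η ⬝ᵥ k = 0 := by rw [hη, smul_dotProduct, k3, smul_zero]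
  have η2 : η ⬝ᵥ e = 1 := by rw [hη, smul_dotProduct, ← hp'def, smul_eq_mul, inv_mul_cancel₀ hp']
  have η3 : η ⬝ᵥ f = 0 := by rw [hη, smul_dotProduct, hψf, smul_zero]
  set θ : Fin (m + 1) → F := μ - η with hθ
  have θ1 : θ ⬝ᵥ f = 0 := by rw [hθ, sub_dotProduct, hμf, η3, sub_zero]
  have θ2 : θ ⬝ᵥ k = 1 := by rw [hθ, sub_dotProduct, k1, η1, sub_zero]
  have θ3 : θ ⬝ᵥ e = -1 := by rw [hθ, sub_dotProduct, hμe, η2, zero_sub]
  have g1 : (T f θ * T k η).1 *ᵥ e = e + k := by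
    show ((T f θ).1 * (T k η).1) *ᵥ e = _
    rw [← mulVec_mulVec, T_mulVec η1, T_mulVec θ1, η2, one_smul, dotProduct_add, θ2, θ3]
    simp
  have g2 : φ ᵥ* ((T f θ * T k η)⁻¹).1 = φ - p • θ := by
    have : ((T f θ * T k η)⁻¹).1 = ((T k η)⁻¹).1 * ((T f θ)⁻¹).1 := by
      rw [_root_.mul_inv_rev]; rfl
    rw [this, ← vecMul_vecMul, T_vecMul_inv η1, k2, zero_smul, sub_zero, T_vecMul_inv θ1]
  obtain ⟨g, hg, hg2⟩ := Pool.Agent.R167.SY.t_CH F (SL m F) (Matrix (I2 m) (Fin (m + 1)) F) rep3 S hS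
    (vecMulVec (ten e e) φ) (lam3 (p • ten μ ψ) (p' • ten μ φ) e f) (T f θ * T k η) (by
      rw [key, g1, g2]
      simp only [dotProduct_add, sub_dotProduct, smul_dotProduct, hμe, k1, h, k2, k3, θ3,
        ← hp'def, smul_eq_mul]
      simp [hp, hp'])
  rw [key] at hg2
  refine ⟨g, ?_, left_ne_zero_of_mul hg2, right_ne_zero_of_mul hg2⟩
  have hfr : Module.finrank F (Matrix (I2 m) (Fin (m + 1)) F) = (m + 1) ^ 3 := by
    rw [Module.finrank_matrix, Fintype.card_prod, Fintype.card_fin, Module.finrank_self]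
    ring
  rwa [hfr] at hg

theorem axis_sep {S : Set (SL m F)} (hS : Subgroup.closure S = ⊤)
    {e φ f ψ l : Fin (m + 1) → F} (h : φ ⬝ᵥ e = 0) (hψf : ψ ⬝ᵥ f = 0) (hp : φ ⬝ᵥ f ≠ 0)
    (hp' : ψ ⬝ᵥ e ≠ 0) {a b : ℕ} (hX : R S a e φ) (hY : R S b f ψ) (hl : l ⬝ᵥ e = 0)
    (hl2 : (φ ⬝ᵥ f) • l - (l ⬝ᵥ f) • φ ≠ 0) :
    ∃ w : Fin (m + 1) → F, φ ⬝ᵥ w = 0 ∧ l ⬝ᵥ w ≠ 0 ∧ R S (8 * a + 4 * (m + 1) ^ 3 + 4 * b) w φ := by
  set p := φ ⬝ᵥ f with hpdef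
  set p' := ψ ⬝ᵥ e with hp'def
  set μ := p • l - (l ⬝ᵥ f) • φ with hμ
  have hμe : μ ⬝ᵥ e = 0 := by
    rw [hμ, sub_dotProduct, smul_dotProduct, smul_dotProduct, hl, h]; simp
  have hμf : μ ⬝ᵥ f = 0 := by
    rw [hμ, sub_dotProduct, smul_dotProduct, smul_dotProduct, ← hpdef, smul_eq_mul, smul_eq_mul]
    ring
  obtain ⟨g, hg, hg1, hg2⟩ := exists_gen3 hS h hψf hp hp' hμe hμf hl2
  have hR1 := hX.conj hg
  set v1 := g.1 *ᵥ e with hv1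
  set ψ1 := φ ᵥ* (g⁻¹).1 with hψ1
  have hv : ψ1 ⬝ᵥ v1 = 0 := by rw [hψ1, hv1, pair_conj, h]
  have hex : ∃ v χ : Fin (m + 1) → F, χ ⬝ᵥ v = 0 ∧ R S (3 * a + 2 * (m + 1) ^ 3) v χ ∧
      ψ ⬝ᵥ v ≠ 0 ∧ p * ((ψ ⬝ᵥ v) * (χ ⬝ᵥ e)) + p' * ((φ ⬝ᵥ v) * (χ ⬝ᵥ f)) ≠ 0 ∧ μ ⬝ᵥ v ≠ 0 := by
    by_cases hc : ψ ⬝ᵥ v1 = 0
    · refine ⟨v1 + (1 * φ ⬝ᵥ v1) • e, ψ1 - (1 * ψ1 ⬝ᵥ e) • φ, ?_, ?_, ?_, ?_, ?_⟩
      · simp only [dotProduct_add, dotProduct_smul, sub_dotProduct, smul_dotProduct, hv, h,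
          smul_eq_mul]
        ring
      · exact R.mono (by omega) (hR1.tconj h hX 1)
      · rw [dotProduct_add, dotProduct_smul, hc, ← hp'def, zero_add, smul_eq_mul, one_mul]
        rw [hc, zero_mul, mul_zero, zero_add] at hg2
        exact mul_ne_zero (left_ne_zero_of_mul (right_ne_zero_of_mul hg2)) hp'
      · simp only [dotProduct_add, dotProduct_smul, sub_dotProduct, smul_dotProduct, h, hc,
          smul_eq_mul, ← hp'def, ← hpdef]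
        rw [hc, zero_mul, mul_zero, zero_add] at hg2
        convert hg2 using 1
        ring
      · rw [dotProduct_add, dotProduct_smul, hμe, smul_zero, add_zero]
        exact hg1
    · exact ⟨v1, ψ1, hv, R.mono (by omega) hR1, hc, hg2, hg1⟩
  obtain ⟨v, χ, hχ, hR2, hc, hD, hμv⟩ := hex
  set c : F := - (φ ⬝ᵥ v) / ((ψ ⬝ᵥ v) * p) with hcdef
  have hR3 := hR2.tconj hψf hY c
  set w := v + (c * ψ ⬝ᵥ v) • f with hw
  set ω := χ - (c * χ ⬝ᵥ f) • ψ with hω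
  have hcc : c * ψ ⬝ᵥ v * p = - (φ ⬝ᵥ v) := by
    rw [hcdef]; field_simp
  have w1 : φ ⬝ᵥ w = 0 := by
    rw [hw, dotProduct_add, dotProduct_smul, ← hpdef, smul_eq_mul, hcc, add_neg_cancel]
  have w2 : ω ⬝ᵥ w = 0 := by
    rw [hω, hw]
    simp only [dotProduct_add, dotProduct_smul, sub_dotProduct, smul_dotProduct, hχ, hψf,
      smul_eq_mul]
    ring
  have w3 : ω ⬝ᵥ e ≠ 0 := by
    intro h0
    apply hD
    rw [hω, sub_dotProduct, smul_dotProduct, ← hp'def, smul_eq_mul] at h0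
    linear_combination (p * (ψ ⬝ᵥ v)) * h0 + (χ ⬝ᵥ f * p') * hcc
  have w4 : l ⬝ᵥ w ≠ 0 := by
    intro h0
    apply hμv
    rw [hw, dotProduct_add, dotProduct_smul, smul_eq_mul] at h0
    rw [hμ, sub_dotProduct, smul_dotProduct, smul_dotProduct, smul_eq_mul, smul_eq_mul]
    linear_combination p * h0 - (l ⬝ᵥ f) * hcc
  refine ⟨w, w1, w4, ?_⟩
  -- the difference
  have hR4 := hX.tconj w2 hR3 1
  rw [w1, mul_zero, zero_smul, sub_zero, one_mul] at hR4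
  have hne : φ ⬝ᵥ (e + (ω ⬝ᵥ e) • w) = 0 := by
    rw [dotProduct_add, dotProduct_smul, h, w1, smul_zero, add_zero]
  have hR5 := (hR4.add_left (hX.smul_left (-1)) hne (by rw [dotProduct_smul, h, smul_zero])).smul_left
    (ω ⬝ᵥ e)⁻¹
  have h6 : (ω ⬝ᵥ e)⁻¹ • (e + (ω ⬝ᵥ e) • w + (-1 : F) • e) = w := by
    rw [neg_one_smul, add_neg_cancel_comm, smul_smul, inv_mul_cancel₀ w3, one_smul]
  rw [h6] at hR5
  exact R.mono (by ring_nf; omega) hR5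

/-- AXIS -/
theorem axis {S : Set (SL m F)} (hS : Subgroup.closure S = ⊤)
    {e φ f ψ : Fin (m + 1) → F} (h : φ ⬝ᵥ e = 0) (hψf : ψ ⬝ᵥ f = 0) (hp : φ ⬝ᵥ f ≠ 0)
    (hp' : ψ ⬝ᵥ e ≠ 0) {a b : ℕ} (hX : R S a e φ) (hY : R S b f ψ) (v : Fin (m + 1) → F)
    (hv : φ ⬝ᵥ v = 0) : R S ((m + 1) * (8 * a + 4 * (m + 1) ^ 3 + 4 * b)) v φ := by
  set L := 8 * a + 4 * (m + 1) ^ 3 + 4 * b with hL
  set A : Set (Fin (m + 1) → F) := {w | R S L w φ ∧ φ ⬝ᵥ w = 0} with hA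
  have hmem : v ∈ Submodule.span F A := by
    by_contra hcon
    obtain ⟨ℓ, hℓ, hℓ2⟩ := Submodule.exists_dual_map_eq_bot_of_notMem hcon inferInstance
    obtain ⟨l, rfl⟩ := (dotProductEquiv F (Fin (m + 1))).surjective ℓ
    simp only [dotProductEquiv_apply_apply] at hℓ
    have hAl : ∀ w ∈ A, l ⬝ᵥ w = 0 := by
      intro w hw
      have h1 : (dotProductEquiv F (Fin (m + 1)) l) w ∈
          (Submodule.span F A).map (dotProductEquiv F (Fin (m + 1)) l) :=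
        Submodule.mem_map_of_mem (Submodule.subset_span hw)
      rw [hℓ2, Submodule.mem_bot] at h1
      simpa using h1
    have hle : l ⬝ᵥ e = 0 := hAl e ⟨hX.mono (by omega), h⟩
    obtain ⟨w, w1, w2, w3⟩ := axis_sep hS h hψf hp hp' hX hY hle (by
      intro h0
      have h1 : ((φ ⬝ᵥ f) • l - (l ⬝ᵥ f) • φ) ⬝ᵥ v = 0 := by rw [h0, zero_dotProduct]
      rw [sub_dotProduct, smul_dotProduct, smul_dotProduct, hv, smul_zero, sub_zero] at h1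
      exact hℓ ((mul_eq_zero.1 h1).resolve_left hp))
    exact w2 (hAl w ⟨w3, w1⟩)
  obtain ⟨b', c, hb, hbA, rfl⟩ := span_finset A v hmem
  refine R.mono ?_ (R_sum_left L φ b' (fun x hx => hbA x hx) c).1
  apply Nat.mul_le_mul_right
  simpa using hb

end Run7.h806.TV
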