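import Pool.Agent.R167.HG.Gauss
import Pool.Agent.R167.HG.Chain
import Pool.Agent.R167.HG.Main
import Pool.Agent.R167.SYC.Ch

/-!
# Transvections of `SL_n(F)` and short root subgroups
-/

set_option autoImplicit false

namespace Run7.h806.TV

open Matrix
open Pool.Agent.R167.HG (Ball SL Mt)
open Pool.Agent.R167.HG.MainP

variable {m : ℕ} {F : Type} [Field F]

open Classical in
/-- the transvection `1 + v ψ` (and `1` if `ψ v ≠ 0`) -/
noncomputable def T (v ψ : Fin (m + 1) → F) : SL m F :=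
  if h : ψ ⬝ᵥ v = 0 then ⟨1 + vecMulVec v ψ, by rw [det_one_add, h, add_zero]⟩ else 1

theorem T_val {v ψ : Fin (m + 1) → F} (h : ψ ⬝ᵥ v = 0) : (T v ψ).1 = 1 + vecMulVec v ψ := by
  unfold T
  rw [dif_pos h]

theorem T_one {v ψ : Fin (m + 1) → F} (h : ψ ⬝ᵥ v ≠ 0) : T v ψ = 1 := by
  unfold T
  rw [dif_neg h]

theorem T_eq {v ψ : Fin (m + 1) → F} (h : ψ ⬝ᵥ v = 0) {x : SL m F}
    (hx : x.1 = 1 + vecMulVec v ψ) : x = T v ψ := Subtype.ext (by rw [hx, T_val h])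

theorem T_zero_left (ψ : Fin (m + 1) → F) : T 0 ψ = 1 := by
  symm
  apply T_eq (by simp)
  ext i j
  simp

theorem T_zero_right (v : Fin (m + 1) → F) : T v 0 = 1 := by
  symm
  apply T_eq (by simp)
  ext i j
  simp

theorem T_smul (c : F) (v ψ : Fin (m + 1) → F) : T (c • v) ψ = T v (c • ψ) := by
  by_cases h : c * ψ ⬝ᵥ v = 0
  · have h1 : ψ ⬝ᵥ (c • v) = 0 := by rw [dotProduct_smul, smul_eq_mul, h]
    have h2 : (c • ψ) ⬝ᵥ v = 0 := by rw [smul_dotProduct, smul_eq_mul, h]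
    apply T_eq h2
    rw [T_val h1, smul_vecMulVec, vecMulVec_smul]
  · rw [T_one, T_one]
    · rw [smul_dotProduct, smul_eq_mul]; exact h
    · rw [dotProduct_smul, smul_eq_mul]; exact h

theorem pair_conj (g : SL m F) (v ψ : Fin (m + 1) → F) :
    (ψ ᵥ* (g⁻¹).1) ⬝ᵥ (g.1 *ᵥ v) = ψ ⬝ᵥ v := by
  rw [dotProduct_mulVec, vecMul_vecMul]
  have : (g⁻¹).1 * g.1 = 1 := congrArg Subtype.val (inv_mul_cancel g)
  rw [this, vecMul_one]

theorem T_conj (g : SL m F) (v ψ : Fin (m + 1) → F) :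
    g * T v ψ * g⁻¹ = T (g.1 *ᵥ v) (ψ ᵥ* (g⁻¹).1) := by
  by_cases h : ψ ⬝ᵥ v = 0
  · apply T_eq (by rw [pair_conj, h])
    show g.1 * (T v ψ).1 * (g⁻¹).1 = _
    rw [T_val h, mul_add, mul_one, add_mul, mul_vecMulVec, vecMulVec_mul]
    congr 1
    exact congrArg Subtype.val (mul_inv_cancel g)
  · rw [T_one h, T_one (by rw [pair_conj]; exact h), mul_one, mul_inv_cancel]

theorem T_add_left {v w ψ : Fin (m + 1) → F} (hv : ψ ⬝ᵥ v = 0) (hw : ψ ⬝ᵥ w = 0) :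
    T v ψ * T w ψ = T (v + w) ψ := by
  apply T_eq (by rw [dotProduct_add, hv, hw, add_zero])
  show (T v ψ).1 * (T w ψ).1 = _
  rw [T_val hv, T_val hw, mul_add, mul_one, add_mul, one_mul, vecMulVec_mul_vecMulVec, hw]
  simp only [zero_smul, add_vecMulVec]
  rw [show vecMulVec v (0 : Fin (m + 1) → F) = 0 by ext i j; simp [vecMulVec_apply]]
  abel

theorem T_add_right {v ψ χ : Fin (m + 1) → F} (hv : ψ ⬝ᵥ v = 0) (hw : χ ⬝ᵥ v = 0) :
    T v ψ * T v χ = T v (ψ + χ) := by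
  apply T_eq (by rw [add_dotProduct, hv, hw, add_zero])
  show (T v ψ).1 * (T v χ).1 = _
  rw [T_val hv, T_val hw, mul_add, mul_one, add_mul, one_mul, vecMulVec_mul_vecMulVec, hv]
  simp only [zero_smul, vecMulVec_add]
  rw [show vecMulVec v (0 : Fin (m + 1) → F) = 0 by ext i j; simp [vecMulVec_apply]]
  abel

theorem T_inv {v ψ : Fin (m + 1) → F} (hv : ψ ⬝ᵥ v = 0) : (T v ψ)⁻¹ = T (-v) ψ := by
  rw [inv_eq_iff_mul_eq_one, T_add_left hv (by rw [dotProduct_neg, hv, neg_zero]), add_neg_cancel,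
    T_zero_left]

theorem T_mulVec {v ψ : Fin (m + 1) → F} (hv : ψ ⬝ᵥ v = 0) (x : Fin (m + 1) → F) :
    (T v ψ).1 *ᵥ x = x + (ψ ⬝ᵥ x) • v := by
  rw [T_val hv, add_mulVec, one_mulVec]
  congr 1
  ext i
  simp only [mulVec, dotProduct, vecMulVec_apply, Pi.smul_apply, smul_eq_mul, Finset.sum_mul]
  exact Finset.sum_congr rfl fun j _ => by ring

theorem T_vecMul {v ψ : Fin (m + 1) → F} (hv : ψ ⬝ᵥ v = 0) (χ : Fin (m + 1) → F) :
    χ ᵥ* (T v ψ).1 = χ + (χ ⬝ᵥ v) • ψ := by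
  rw [T_val hv, vecMul_add, vecMul_one]
  congr 1
  ext i
  simp only [vecMul, dotProduct, vecMulVec_apply, Pi.smul_apply, smul_eq_mul, Finset.sum_mul]
  exact Finset.sum_congr rfl fun j _ => by ring

theorem T_vecMul_inv {v ψ : Fin (m + 1) → F} (hv : ψ ⬝ᵥ v = 0) (χ : Fin (m + 1) → F) :
    χ ᵥ* ((T v ψ)⁻¹).1 = χ - (χ ⬝ᵥ v) • ψ := by
  rw [T_inv hv, T_vecMul (by rw [dotProduct_neg, hv, neg_zero]), dotProduct_neg, neg_smul,
    sub_eq_add_neg]

theorem T_tconj {w χ : Fin (m + 1) → F} (h : χ ⬝ᵥ w = 0) (v ψ : Fin (m + 1) → F) :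
    T w χ * T v ψ * (T w χ)⁻¹ = T (v + (χ ⬝ᵥ v) • w) (ψ - (ψ ⬝ᵥ w) • χ) := by
  rw [T_conj, T_mulVec h, T_vecMul_inv h]

/-- all transvections `1 + c v ψ` are words of length at most `L` -/
def R (S : Set (SL m F)) (L : ℕ) (v ψ : Fin (m + 1) → F) : Prop :=
  ∀ c : F, T (c • v) ψ ∈ Ball S L

section R
variable {S : Set (SL m F)}

theorem R.mono {L M : ℕ} (h : L ≤ M) {v ψ : Fin (m + 1) → F} (hR : R S L v ψ) : R S M v ψ :=
  fun c => ball_mono h (hR c)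

theorem R.smul_left {L : ℕ} {v ψ : Fin (m + 1) → F} (hR : R S L v ψ) (a : F) : R S L (a • v) ψ :=
  fun c => by rw [smul_smul]; exact hR _

theorem R.smul_right {L : ℕ} {v ψ : Fin (m + 1) → F} (hR : R S L v ψ) (a : F) :
    R S L v (a • ψ) := fun c => by
  rw [← T_smul, smul_smul]; exact hR _

theorem R.conj {L k : ℕ} {v ψ : Fin (m + 1) → F} (hR : R S L v ψ) {g : SL m F}
    (hg : g ∈ Ball S k) : R S (L + 2 * k) (g.1 *ᵥ v) (ψ ᵥ* (g⁻¹).1) := fun c => by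
  rw [← mulVec_smul, ← T_conj]
  exact ball_mono (by omega) (ball_mul (ball_mul hg (hR c)) (ball_inv hg))

theorem R.tconj {L M : ℕ} {v ψ : Fin (m + 1) → F} (hR : R S L v ψ) {w χ : Fin (m + 1) → F}
    (h : χ ⬝ᵥ w = 0) (hR' : R S M w χ) (a : F) :
    R S (L + 2 * M) (v + (a * χ ⬝ᵥ v) • w) (ψ - (a * ψ ⬝ᵥ w) • χ) := by
  have h1 := hR.conj (hR' a)
  have h2 : χ ⬝ᵥ (a • w) = 0 := by rw [dotProduct_smul, h, smul_zero]
  rw [T_mulVec h2, T_vecMul_inv h2, dotProduct_smul, smul_smul, smul_eq_mul, mul_comm _ a] at h1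
  exact h1

theorem R.add_left {L M : ℕ} {v w ψ : Fin (m + 1) → F} (h1 : R S L v ψ) (h2 : R S M w ψ)
    (hv : ψ ⬝ᵥ v = 0) (hw : ψ ⬝ᵥ w = 0) : R S (L + M) (v + w) ψ := fun c => by
  rw [smul_add, ← T_add_left (by rw [dotProduct_smul, hv, smul_zero])
    (by rw [dotProduct_smul, hw, smul_zero])]
  exact ball_mul (h1 c) (h2 c)

theorem R.add_right {L M : ℕ} {v ψ χ : Fin (m + 1) → F} (h1 : R S L v ψ) (h2 : R S M v χ)
    (hv : ψ ⬝ᵥ v = 0) (hw : χ ⬝ᵥ v = 0) : R S (L + M) v (ψ + χ) := fun c => by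
  rw [← T_add_right (by rw [dotProduct_smul, hv, smul_zero])
    (by rw [dotProduct_smul, hw, smul_zero])]
  exact ball_mul (h1 c) (h2 c)

theorem R_zero_left (L : ℕ) (ψ : Fin (m + 1) → F) : R S L 0 ψ := fun c => by
  rw [smul_zero, T_zero_left]; exact ball_one

theorem R_zero_right (L : ℕ) (v : Fin (m + 1) → F) : R S L v 0 := fun c => by
  rw [T_zero_right]; exact ball_one

theorem R_sum_left (L : ℕ) (ψ : Fin (m + 1) → F) (b : Finset (Fin (m + 1) → F))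
    (hb : ∀ x ∈ b, R S L x ψ ∧ ψ ⬝ᵥ x = 0) (c : (Fin (m + 1) → F) → F) :
    R S (b.card * L) (∑ x ∈ b, c x • x) ψ ∧ ψ ⬝ᵥ (∑ x ∈ b, c x • x) = 0 := by
  classical
  induction b using Finset.induction_on with
  | empty => simp only [Finset.sum_empty]; exact ⟨R_zero_left _ _, dotProduct_zero _⟩
  | insert a b ha ih =>
    rw [Finset.sum_insert ha, Finset.card_insert_of_notMem ha]
    obtain ⟨i1, i2⟩ := ih fun x hx => hb x (Finset.mem_insert_of_mem hx)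
    obtain ⟨j1, j2⟩ := hb a (Finset.mem_insert_self _ _)
    have j3 : ψ ⬝ᵥ (c a • a) = 0 := by rw [dotProduct_smul, j2, smul_zero]
    refine ⟨R.mono (by rw [Nat.succ_mul, Nat.add_comm]) ((j1.smul_left (c a)).add_left i1 j3 i2), ?_⟩
    rw [dotProduct_add, i2, j3, add_zero]

theorem R_sum_right (L : ℕ) (v : Fin (m + 1) → F) (b : Finset (Fin (m + 1) → F))
    (f : (Fin (m + 1) → F) → (Fin (m + 1) → F))
    (hb : ∀ x ∈ b, R S L v (f x) ∧ (f x) ⬝ᵥ v = 0) (c : (Fin (m + 1) → F) → F) :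
    R S (b.card * L) v (∑ x ∈ b, c x • f x) ∧ (∑ x ∈ b, c x • f x) ⬝ᵥ v = 0 := by
  classical
  induction b using Finset.induction_on with
  | empty => simp only [Finset.sum_empty]; exact ⟨R_zero_right _ _, zero_dotProduct _⟩
  | insert a b ha ih =>
    rw [Finset.sum_insert ha, Finset.card_insert_of_notMem ha]
    obtain ⟨i1, i2⟩ := ih fun x hx => hb x (Finset.mem_insert_of_mem hx)
    obtain ⟨j1, j2⟩ := hb a (Finset.mem_insert_self _ _)
    have j3 : (c a • f a) ⬝ᵥ v = 0 := by rw [smul_dotProduct, j2, smul_zero]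
    refine ⟨R.mono (by rw [Nat.succ_mul, Nat.add_comm]) ((j1.smul_right (c a)).add_right i1 j3 i2),
      ?_⟩
    rw [add_dotProduct, i2, j3, add_zero]

end R

/-- a vector in the span of a set is a combination of at most `dim` elements of the set -/
theorem span_finset {V : Type} [AddCommGroup V] [Module F V] [FiniteDimensional F V] (A : Set V)
    (v : V) (hv : v ∈ Submodule.span F A) : ∃ (b : Finset V) (c : V → F),
      b.card ≤ Module.finrank F V ∧ (∀ x ∈ b, x ∈ A) ∧ v = ∑ x ∈ b, c x • x := by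
  classical
  obtain ⟨b, hb, hs, hl⟩ := exists_linearIndependent F A
  have hfin : b.Finite := hl.setFinite
  obtain ⟨B, rfl⟩ : ∃ B : Finset V, (B : Set V) = b := ⟨hfin.toFinset, by simp⟩
  rw [← hs] at hv
  obtain ⟨c, -, hc⟩ := Submodule.mem_span_finset.1 hv
  refine ⟨B, c, ?_, fun x hx => hb hx, hc.symm⟩
  have h1 := hl.fintype_card_le_finrank
  simpa using h1

end Run7.h806.TV
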