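import Pool.Agent.Run7.h806.TV.Avoid

/-!
# One transvection over a finite field
-/

set_option autoImplicit false

namespace Run7.h806.TV

open Matrix
open Pool.Agent.R167.HG (Ball SL Mt PSL)
open Pool.Agent.R167.HG.MainP

variable {m : ℕ} {F : Type} [Field F]

theorem ball_zpow' {G : Type} [Group G] {S : Set G} {x : G} {a : ℕ} (hx : x ∈ Ball S a) (z : ℤ) :
    x ^ z ∈ Ball S (z.natAbs * a) := by
  have h1 : ∀ n : ℕ, x ^ n ∈ Ball S (n * a) := by
    intro n
    induction n with
    | zero => rw [pow_zero]; exact ball_one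
    | succ n ih =>
      rw [pow_succ, Nat.succ_mul]
      exact ball_mul ih hx
  rcases Int.natAbs_eq z with h | h
  · rw [h, zpow_natCast, Int.natAbs_natCast]
    exact h1 _
  · rw [h, _root_.zpow_neg, zpow_natCast, Int.natAbs_neg, Int.natAbs_natCast]
    exact ball_inv (h1 z.natAbs)

/-- if all transvections with the axis `φ` are short, everything is short -/
theorem finish {S : Set (SL m F)} (hS : Subgroup.closure S = ⊤) {φ : Fin (m + 1) → F}
    (hφ : φ ≠ 0) {N : ℕ} (hA : ∀ v, φ ⬝ᵥ v = 0 → T v φ ∈ Ball S N) (g : SL m F) :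
    g ∈ Ball S (12 * (m + 1) ^ 2 * (N + 2 * (m + 1))) := by
  have hA' : ∀ v, φ ⬝ᵥ v = 0 → R S N v φ := fun v hv c =>
    hA _ (by rw [dotProduct_smul, hv, smul_zero])
  have hAll := all hS hφ hA'
  obtain ⟨l, hl, hT, rfl⟩ := Pool.Agent.R167.HG.t_GAUSS F m g
  have key : ∀ x ∈ l, x ∈ Ball S ((m + 1) * (3 * (N + 2 * (m + 1)))) := by
    intro x hx
    obtain ⟨f, ψ, hx, hd, -⟩ := hT x hx
    have h1 := hAll f ψ hd 1
    rwa [one_smul, ← T_eq hd hx] at h1
  refine ball_mono ?_ (ball_list l key)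
  refine (Nat.mul_le_mul_right _ (hl.trans (Nat.mul_le_mul_left 4 (Nat.le_succ m)))).trans
    (le_of_eq ?_)
  rw [Nat.succ_eq_add_one]
  ring

section fin

variable {p : ℕ} [Fact p.Prime] [Algebra (ZMod p) F] [Finite F]

/-- all transvections with the axis `φ` are short -/
theorem axis_short {k : ℕ} (hk : Module.finrank (ZMod p) F = k) {S : Set (SL m F)}
    (hS : Subgroup.closure S = ⊤) {e φ : Fin (m + 1) → F} (he : e ≠ 0) (hφ : φ ≠ 0)
    (h : φ ⬝ᵥ e = 0) (hm : 2 ≤ m) {a : ℕ} (ha : T e φ ∈ Ball S a)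
    (v : Fin (m + 1) → F) (hv : φ ⬝ᵥ v = 0) :
    T v φ ∈ Ball S ((m + 1) * k * (p / 2 * (4 * DD m p k + 4 * a))) := by
  classical
  haveI : Module.Finite (ZMod p) F := Module.Finite.of_finite
  set L := 4 * DD m p k + 4 * a with hL
  set U : Set (Fin (m + 1) → F) := {u | φ ⬝ᵥ u = 0 ∧ T u φ ∈ Ball S L} with hU
  have hmem : v ∈ Submodule.span (ZMod p) U := by
    by_contra hcon
    obtain ⟨ℓ, hℓ, hℓ2⟩ := Submodule.exists_dual_map_eq_bot_of_notMem hcon inferInstance
    obtain ⟨g, hg, hg1, hg2⟩ := exists_closed hk hS he hφ h hm ℓ hv hℓ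
    apply hg2
    set w := g.1 *ᵥ e with hw
    set χ := φ ᵥ* (g⁻¹).1 with hχ
    have hχw : χ ⬝ᵥ w = 0 := by rw [hχ, hw, pair_conj, h]
    have hmemU : (χ ⬝ᵥ e) • w ∈ U := by
      have hφw : φ ⬝ᵥ ((χ ⬝ᵥ e) • w) = 0 := by rw [dotProduct_smul, hg1, smul_zero]
      refine ⟨hφw, ?_⟩
      have h1 : T w χ ∈ Ball S (2 * DD m p k + a) := by
        rw [hw, hχ, ← T_conj]
        exact ball_mono (by omega) (ball_mul (ball_mul hg ha) (ball_inv hg))
      have h2 : T ((χ ⬝ᵥ e) • w) φ = T w χ * T e φ * (T w χ)⁻¹ * (T e φ)⁻¹ := by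
        rw [T_tconj hχw, hg1, zero_smul, sub_zero, add_comm e, ← T_add_left hφw h,
          mul_inv_cancel_right]
      rw [h2]
      exact ball_mono (by omega) (ball_mul (ball_mul (ball_mul h1 ha) (ball_inv h1)) (ball_inv ha))
    have h3 : ℓ ((χ ⬝ᵥ e) • w) ∈ (Submodule.span (ZMod p) U).map ℓ :=
      Submodule.mem_map_of_mem (Submodule.subset_span hmemU)
    rw [hℓ2, Submodule.mem_bot] at h3
    exact h3
  obtain ⟨b, c, hb, hbU, rfl⟩ := span_finset U v hmem
  have hfr : Module.finrank (ZMod p) (Fin (m + 1) → F) = (m + 1) * k := by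
    rw [Module.finrank_pi_fintype, Finset.sum_const, Finset.card_univ, Fintype.card_fin, hk,
      smul_eq_mul]
  rw [hfr] at hb
  have hz : ∀ x : Fin (m + 1) → F, c x • x = (c x).valMinAbs • x := by
    intro x
    conv_lhs => rw [← ZMod.coe_valMinAbs (c x)]
    exact Int.cast_smul_eq_zsmul (ZMod p) _ x
  have key : ∀ b : Finset (Fin (m + 1) → F), (∀ x ∈ b, x ∈ U) →
      φ ⬝ᵥ (∑ x ∈ b, c x • x) = 0 ∧
        T (∑ x ∈ b, c x • x) φ ∈ Ball S (b.card * (p / 2 * L)) := by
    intro b
    induction b using Finset.induction_on with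
    | empty =>
      intro _
      rw [Finset.sum_empty, T_zero_left, dotProduct_zero]
      exact ⟨rfl, ball_one⟩
    | insert a b ha ih =>
      intro hb
      obtain ⟨i1, i2⟩ := ih fun x hx => hb x (Finset.mem_insert_of_mem hx)
      obtain ⟨j1, j2⟩ := hb a (Finset.mem_insert_self _ _)
      have j3 : φ ⬝ᵥ (c a • a) = 0 := by rw [dotProduct_smul, j1, smul_zero]
      rw [Finset.sum_insert ha, Finset.card_insert_of_notMem ha]
      refine ⟨by rw [dotProduct_add, i1, j3, add_zero], ?_⟩
      rw [← T_add_left j3 i1, Nat.succ_mul, Nat.add_comm (b.card * (p / 2 * L)) (p / 2 * L)]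
      refine ball_mul ?_ i2
      have hpow : ∀ z : ℤ, T (z • a) φ = (T a φ) ^ z := by
        intro z
        let Y : Multiplicative ℤ →* SL m F :=
          { toFun := fun n => T ((Multiplicative.toAdd n) • a) φ
            map_one' := by
              show T ((0 : ℤ) • a) φ = 1
              rw [zero_smul, T_zero_left]
            map_mul' := fun x y => by
              have q : ∀ n : ℤ, φ ⬝ᵥ (n • a) = 0 := fun n => by
                rw [dotProduct_smul, j1, smul_zero]
              show T ((Multiplicative.toAdd x + Multiplicative.toAdd y) • a) φ =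
                T ((Multiplicative.toAdd x) • a) φ * T ((Multiplicative.toAdd y) • a) φ
              rw [T_add_left (q _) (q _), add_smul] }
        have h3 : Y (Multiplicative.ofAdd (1 : ℤ) ^ z) = Y (Multiplicative.ofAdd (1 : ℤ)) ^ z :=
          _root_.map_zpow Y _ z
        have h4 : Multiplicative.ofAdd (1 : ℤ) ^ z = Multiplicative.ofAdd z := by
          rw [← ofAdd_zsmul, smul_eq_mul, mul_one]
        rw [h4] at h3
        have h5 : Y (Multiplicative.ofAdd (1 : ℤ)) = T a φ := by
          show T ((1 : ℤ) • a) φ = T a φ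
          rw [one_smul]
        rw [h5] at h3
        exact h3
      rw [hz, hpow]
      refine ball_mono ?_ (ball_zpow' j2 _)
      exact Nat.mul_le_mul_right _ (ZMod.natAbs_valMinAbs_le _)
  exact ball_mono (Nat.mul_le_mul_right _ hb) (key b hbU).2

end fin

/-- the bound for sets with a transvection of length `a` -/
def b1 (m p k a : ℕ) : ℕ :=
  12 * (m + 1) ^ 2 * ((m + 1) * k * (p / 2 * (4 * DD m p k + 4 * a)) + 2 * (m + 1))

theorem one_transvection {p k : ℕ} (hp : p.Prime) [CharP F p] [Finite F]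
    (hk : Nat.card F = p ^ k) {S : Set (SL m F)}
    (hS : Subgroup.closure S = ⊤) {e φ : Fin (m + 1) → F} (he : e ≠ 0) (hφ : φ ≠ 0)
    (h : φ ⬝ᵥ e = 0) (hm : 2 ≤ m) {a : ℕ} (ha : T e φ ∈ Ball S a) (g : SL m F) :
    g ∈ Ball S (b1 m p k a) := by
  haveI : Fact p.Prime := ⟨hp⟩
  letI := ZMod.algebra F p
  haveI : Module.Finite (ZMod p) F := Module.Finite.of_finite
  have h3 : Nat.card F = Nat.card (ZMod p) ^ Module.finrank (ZMod p) F :=
    Module.natCard_eq_pow_finrank
  rw [Nat.card_zmod, hk] at h3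
  have h4 := Nat.pow_right_injective hp.two_le h3
  exact finish hS hφ (axis_short h4.symm hS he hφ h hm ha) g

/-- the trivial bound -/
theorem ball_card {G : Type} [Group G] [Finite G] {S : Set G} (hS : Subgroup.closure S = ⊤)
    (x : G) : x ∈ Ball S (Nat.card G) := by
  classical
  cases nonempty_fintype G
  let R : G →* ((G → ZMod 2) →ₗ[ZMod 2] (G → ZMod 2)) :=
    { toFun := fun g =>
        { toFun := fun f y => f (g⁻¹ * y)
          map_add' := fun _ _ => rfl
          map_smul' := fun _ _ => rfl }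
      map_one' := by
        apply LinearMap.ext
        intro f
        funext y
        show f ((1 : G)⁻¹ * y) = f y
        rw [inv_one, one_mul]
      map_mul' := fun g h => by
        apply LinearMap.ext
        intro f
        funext y
        show f ((g * h)⁻¹ * y) = f (h⁻¹ * (g⁻¹ * y))
        rw [_root_.mul_inv_rev, mul_assoc] }
  obtain ⟨h, hh, hh2⟩ := Pool.Agent.R167.SY.t_CH (ZMod 2) G (G → ZMod 2) R S hS
    (Pi.single 1 1) (LinearMap.proj x) x (by
      show (Pi.single (1 : G) (1 : ZMod 2) : G → ZMod 2) (x⁻¹ * x) ≠ 0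
      rw [inv_mul_cancel, Pi.single_eq_same]
      exact one_ne_zero)
  have h1 : h = x := by
    by_contra hne
    apply hh2
    show (Pi.single (1 : G) (1 : ZMod 2) : G → ZMod 2) (h⁻¹ * x) = 0
    rw [Pi.single_apply, if_neg]
    intro h0
    exact hne (inv_mul_eq_one.1 h0)
  rw [h1] at hh
  rwa [Module.finrank_pi, ← Nat.card_eq_fintype_card] at hh

end Run7.h806.TV
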