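import Pool.Agent.Run7.h806.TV.Supp
import Pool.Agent.Run7.h806.TV.One

/-!
# From an element of small support to a transvection
-/

set_option autoImplicit false

namespace Run7.h806.TV

open Matrix
open Pool.Agent.R167.HG (Ball SL Mt PSL)
open Pool.Agent.R167.HG.MainP

variable {m : ℕ} {F : Type} [Field F]

section fin

variable {p : ℕ} [Fact p.Prime] [Algebra (ZMod p) F] [Finite F]

/-- closed conditions are satisfied by short words -/
theorem closed_conditions {k : ℕ} (hk : Module.finrank (ZMod p) F = k) {G : Type} [Group G]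
    {S : Set G} (hS : Subgroup.closure S = ⊤) {W0 : Type} [AddCommGroup W0] [Module (ZMod p) W0]
    [FiniteDimensional (ZMod p) W0] (R0 : G →* (W0 →ₗ[ZMod p] W0)) (w0 : W0) {τ : Type}
    [Fintype τ] (L : τ → (W0 →ₗ[ZMod p] F)) (a : τ → F) (g0 : G)
    (h0 : ∀ t, L t (R0 g0 w0) = a t) :
    ∃ g ∈ Ball S ((1 + Module.finrank (ZMod p) W0) ^ (Fintype.card τ * (k * (p - 1)))),
      ∀ t, L t (R0 g w0) = a t := by
  classical
  haveI : Module.Finite (ZMod p) F := Module.Finite.of_finite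
  set b := Module.finBasis (ZMod p) F with hb
  let l : List (ZMod p × (W0 →ₗ[ZMod p] ZMod p)) :=
    (Finset.univ : Finset (τ × Fin (Module.finrank (ZMod p) F) × (ZMod p)ˣ)).toList.map fun x =>
        (-(b.coord x.2.1 (a x.1)) - (x.2.2 : ZMod p), b.coord x.2.1 ∘ₗ L x.1)
  have hl : l.length = Fintype.card τ * (k * (p - 1)) := by
    show (_ : List _).length = _
    rw [List.length_map, Finset.length_toList, Finset.card_univ,
      Fintype.card_prod, Fintype.card_prod, Fintype.card_fin, ZMod.card_units, hk]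
  obtain ⟨g, hg, hg2⟩ := avoid hS R0 w0 l g0 (by
    intro x hx
    rw [List.mem_map] at hx
    obtain ⟨⟨t, c, s⟩, -, rfl⟩ := hx
    show -(b.coord c (a t)) - (s : ZMod p) + b.coord c (L t (R0 g0 w0)) ≠ 0
    rw [h0]
    have : -(b.coord c (a t)) - (s : ZMod p) + b.coord c (a t) = -(s : ZMod p) := by ring
    rw [this]
    exact neg_ne_zero.2 s.ne_zero)
  refine ⟨g, by rwa [hl] at hg, fun t => ?_⟩
  rw [← sub_eq_zero, ← b.forall_coord_eq_zero_iff]
  intro c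
  by_contra hc
  have := hg2 (-(b.coord c (a t)) - (b.coord c (L t (R0 g w0) - a t)), b.coord c ∘ₗ L t) (by
    rw [List.mem_map]
    exact ⟨(t, c, Units.mk0 _ hc), by simp, rfl⟩)
  apply this
  show -(b.coord c (a t)) - (b.coord c (L t (R0 g w0) - a t)) + b.coord c (L t (R0 g w0)) = 0
  rw [map_sub]
  ring

/-- multiplication on both sides -/
def rep2 (p : ℕ) [Fact p.Prime] (m : ℕ) (F : Type) [Field F] [Algebra (ZMod p) F] :
    SL m F →* ((Mt m F × Mt m F) →ₗ[ZMod p] (Mt m F × Mt m F)) where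
  toFun g :=
    { toFun := fun X => (g.1 * X.1, X.2 * (g⁻¹).1)
      map_add' := fun X Y => by
        refine Prod.ext ?_ ?_
        · exact Matrix.mul_add _ _ _
        · exact Matrix.add_mul _ _ _
      map_smul' := fun c X => by
        refine Prod.ext ?_ ?_
        · exact Matrix.mul_smul _ _ _
        · exact Matrix.smul_mul _ _ _ }
  map_one' := by
    apply LinearMap.ext
    rintro ⟨X, Y⟩
    show ((1 : Mt m F) * X, Y * ((1 : SL m F)⁻¹).1) = (X, Y)
    rw [inv_one, Matrix.one_mul]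
    refine Prod.ext rfl ?_
    exact Matrix.mul_one Y
  map_mul' g h := by
    apply LinearMap.ext
    rintro ⟨X, Y⟩
    show ((g.1 * h.1) * X, Y * ((g * h)⁻¹).1) = (g.1 * (h.1 * X), Y * (h⁻¹).1 * (g⁻¹).1)
    rw [_root_.mul_inv_rev]
    refine Prod.ext ?_ ?_
    · exact Matrix.mul_assoc _ _ _
    · show Y * ((h⁻¹).1 * (g⁻¹).1) = _
      exact (Matrix.mul_assoc _ _ _).symm

omit [Finite F] in
theorem rep2_apply (g : SL m F) : rep2 p m F g (1, 1) = (g.1, (g⁻¹).1) := by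
  show (g.1 * 1, 1 * (g⁻¹).1) = _
  rw [Matrix.mul_one, Matrix.one_mul]

/-- the length of the second word -/
def D2 (m p k r : ℕ) : ℕ := (1 + 2 * k * (m + 1) ^ 2) ^ (2 * r ^ 2 * (k * (p - 1)))

theorem short_pos {k : ℕ} (hk : Module.finrank (ZMod p) F = k) {S : Set (SL m F)}
    (hS : Subgroup.closure S = ⊤) {r : ℕ} (v ψ : Fin r → (Fin (m + 1) → F))
    (a : Fin r → Fin r → F) (g0 : SL m F)
    (h0 : ∀ i j, ψ i ⬝ᵥ (g0.1 *ᵥ v j) = a i j) (h1 : ∀ i j, ψ i ⬝ᵥ ((g0⁻¹).1 *ᵥ v j) = 0) :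
    ∃ g ∈ Ball S (D2 m p k r), (∀ i j, ψ i ⬝ᵥ (g.1 *ᵥ v j) = a i j) ∧
      ∀ i j, ψ i ⬝ᵥ ((g⁻¹).1 *ᵥ v j) = 0 := by
  haveI : Module.Finite (ZMod p) F := Module.Finite.of_finite
  let L : (Fin r × Fin r) ⊕ (Fin r × Fin r) → ((Mt m F × Mt m F) →ₗ[ZMod p] F) :=
    Sum.elim (fun t => (dt0 p (ψ t.1) ∘ₗ ev0 p (v t.2)) ∘ₗ LinearMap.fst _ _ _)
      (fun t => (dt0 p (ψ t.1) ∘ₗ ev0 p (v t.2)) ∘ₗ LinearMap.snd _ _ _)
  let b : (Fin r × Fin r) ⊕ (Fin r × Fin r) → F := Sum.elim (fun t => a t.1 t.2) (fun _ => 0)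
  have hL1 : ∀ g : SL m F, ∀ i j, L (Sum.inl (i, j)) (rep2 p m F g (1, 1)) =
      ψ i ⬝ᵥ (g.1 *ᵥ v j) := by
    intro g i j
    rw [rep2_apply]
    rfl
  have hL2 : ∀ g : SL m F, ∀ i j, L (Sum.inr (i, j)) (rep2 p m F g (1, 1)) =
      ψ i ⬝ᵥ ((g⁻¹).1 *ᵥ v j) := by
    intro g i j
    rw [rep2_apply]
    rfl
  obtain ⟨g, hg, hg2⟩ := closed_conditions hk hS (rep2 p m F) (1, 1) L b g0 (by
    rintro (⟨i, j⟩ | ⟨i, j⟩)
    · rw [hL1, h0]
      rfl
    · rw [hL2, h1]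
      rfl)
  refine ⟨g, ?_, fun i j => ?_, fun i j => ?_⟩
  · rw [Module.finrank_prod, Module.finrank_matrix, Fintype.card_fin, hk, Fintype.card_sum,
      Fintype.card_prod, Fintype.card_fin] at hg
    refine ball_mono (le_of_eq ?_) hg
    unfold D2
    congr 1 <;> ring
  · rw [← hL1, hg2]
    rfl
  · rw [← hL2, hg2]
    rfl

end fin

/-- an element of small support gives a short transvection -/
theorem exists_transvection {p k : ℕ} (hp : p.Prime) [CharP F p] [Finite F]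
    (hk : Nat.card F = p ^ k) {S : Set (SL m F)} (hS : Subgroup.closure S = ⊤) {x : SL m F}
    (hx : x ∈ S) (c : F) {r : ℕ} (hr : Module.finrank F (rg (x.1 - c • (1 : Mt m F))) = r)
    (hr0 : 0 < r) (hn : 3 * r ≤ m) :
    ∃ e φ : Fin (m + 1) → F, e ≠ 0 ∧ φ ≠ 0 ∧ φ ⬝ᵥ e = 0 ∧ T e φ ∈ Ball S (4 * D2 m p k r + 4) := by
  haveI : Fact p.Prime := ⟨hp⟩
  letI := ZMod.algebra F p
  haveI : Module.Finite (ZMod p) F := Module.Finite.of_finite
  have h3 : Nat.card F = Nat.card (ZMod p) ^ Module.finrank (ZMod p) F :=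
    Module.natCard_eq_pow_finrank
  rw [Nat.card_zmod, hk] at h3
  have h4 := Nat.pow_right_injective hp.two_le h3
  set A : Mt m F := x.1 - c • (1 : Mt m F) with hA
  obtain ⟨v, ψ, y, hv, hAx, hψy, hker⟩ := decomp A hr
  obtain ⟨g0, hg0, hg1⟩ := exists_pos A hr hr0 hn hv hψy hker
  obtain ⟨g, hg, hg2, hg3⟩ := short_pos h4.symm hS v ψ _ g0 hg0 hg1
  set i0 : Fin r := ⟨0, hr0⟩ with hi0
  set x' : SL m F := g * x * g⁻¹ with hx'
  set M : SL m F := x' * x with hM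
  set ω : Fin (m + 1) → F := (ψ i0 ᵥ* (g⁻¹).1) ᵥ* (M⁻¹).1 with hω
  have hgg : g.1 * (g⁻¹).1 = 1 := congrArg Subtype.val (mul_inv_cancel g)
  have hxA : x.1 = c • (1 : Mt m F) + A := by rw [hA]; abel
  set B : Mt m F := g.1 * A * (g⁻¹).1 with hB
  have hx'B : x'.1 = c • (1 : Mt m F) + B := by
    show g.1 * x.1 * (g⁻¹).1 = _
    rw [hxA, mul_add, add_mul, Matrix.mul_smul, Matrix.smul_mul, mul_one, hgg]
  -- the products
  have hBA : B * A = 0 := by
    apply Matrix.toLin'.injective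
    apply LinearMap.ext
    intro z
    rw [Matrix.toLin'_apply, map_zero, LinearMap.zero_apply, hB, ← mulVec_mulVec, ← mulVec_mulVec,
      ← mulVec_mulVec, hAx z]
    have h5 : A *ᵥ ((g⁻¹).1 *ᵥ (∑ i, (ψ i ⬝ᵥ z) • v i)) = 0 := by
      rw [hAx]
      apply Finset.sum_eq_zero
      intro i _
      have h6 : ψ i ⬝ᵥ ((g⁻¹).1 *ᵥ (∑ i, (ψ i ⬝ᵥ z) • v i)) = 0 := by
        rw [mulVec_sum, dotProduct_sum]
        apply Finset.sum_eq_zero
        intro j _
        rw [mulVec_smul, dotProduct_smul, hg3, smul_zero]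
      rw [h6, zero_smul]
    rw [h5, mulVec_zero]
  have hAB : A * B = vecMulVec (v i0) (ψ i0 ᵥ* (g⁻¹).1) := by
    apply Matrix.toLin'.injective
    apply LinearMap.ext
    intro z
    rw [Matrix.toLin'_apply, Matrix.toLin'_apply, hB, ← mulVec_mulVec, ← mulVec_mulVec,
      ← mulVec_mulVec, vecMulVec_mulVec, op_smul_eq_smul, ← dotProduct_mulVec]
    rw [hAx ((g⁻¹).1 *ᵥ z), hAx]
    have h6 : ∀ i, ψ i ⬝ᵥ (g.1 *ᵥ (∑ j, (ψ j ⬝ᵥ ((g⁻¹).1 *ᵥ z)) • v j)) =
        if i = i0 then ψ i0 ⬝ᵥ ((g⁻¹).1 *ᵥ z) else 0 := by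
      intro i
      rw [mulVec_sum, dotProduct_sum, Finset.sum_eq_single i0]
      · rw [mulVec_smul, dotProduct_smul, hg2, if_pos rfl, smul_eq_mul]
        split_ifs
        · rw [mul_one]
        · rw [mul_zero]
      · intro j _ hj
        rw [mulVec_smul, dotProduct_smul, hg2, if_neg hj, smul_zero]
      · intro h7
        exact absurd (Finset.mem_univ _) h7
    rw [Finset.sum_eq_single i0]
    · rw [h6, if_pos rfl]
    · intro i _ hi
      rw [h6, if_neg hi, zero_smul]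
    · intro h7
      exact absurd (Finset.mem_univ _) h7
  have hMM : M.1 * (M⁻¹).1 = 1 := congrArg Subtype.val (mul_inv_cancel M)
  have hprod : (x * x').1 = M.1 + vecMulVec (v i0) (ψ i0 ᵥ* (g⁻¹).1) := by
    show x.1 * x'.1 = x'.1 * x.1 + _
    rw [← hAB, hxA, hx'B, mul_add, add_mul, add_mul, mul_add, add_mul, add_mul, hBA]
    simp only [Matrix.smul_mul, Matrix.mul_smul, one_mul, mul_one]
    abel
  set y' : SL m F := x * x' * M⁻¹ with hy'
  have hyv : y'.1 = 1 + vecMulVec (v i0) ω := by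
    show (x * x').1 * (M⁻¹).1 = _
    rw [hprod, add_mul, hMM, vecMulVec_mul, hω]
  have hdet : ω ⬝ᵥ v i0 = 0 := by
    have h5 : y'.1.det = 1 := y'.2
    rw [hyv, det_one_add] at h5
    exact add_eq_left.1 h5
  have hy'T : y' = T (v i0) ω := T_eq hdet hyv
  refine ⟨v i0, ω, hv.ne_zero i0, ?_, hdet, ?_⟩
  · intro h0
    have h5 : ψ i0 = 0 := by
      have h6 : (ω ᵥ* M.1) ᵥ* g.1 = ψ i0 := by
        have h7 : (M⁻¹).1 * M.1 = 1 := congrArg Subtype.val (inv_mul_cancel M)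
        have h8 : (g⁻¹).1 * g.1 = 1 := congrArg Subtype.val (inv_mul_cancel g)
        have e1 : ω ᵥ* M.1 = ψ i0 ᵥ* (g⁻¹).1 := by rw [hω, vecMul_vecMul, h7, vecMul_one]
        rw [e1, vecMul_vecMul, h8, vecMul_one]
      rw [← h6, h0, zero_vecMul, zero_vecMul]
    have h9 := hψy i0 i0
    rw [h5, zero_dotProduct, if_pos rfl] at h9
    exact zero_ne_one h9
  · rw [← hy'T, hy', hM]
    have hxb : x ∈ Ball S 1 := ⟨[x], by simp, by simpa using Or.inl hx, by simp⟩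
    have hx'b : x' ∈ Ball S (2 * D2 m p k r + 1) :=
      ball_mono (by omega) (ball_mul (ball_mul hg hxb) (ball_inv hg))
    exact ball_mono (by omega) (ball_mul (ball_mul hxb hx'b) (ball_inv (ball_mul hx'b hxb)))

end Run7.h806.TV
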