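import Pool.Agent.Run7.h806.TV.All
import Pool.Agent.R167.HG.Card

/-!
# Quotients of `SL_n(F)`, generating sets containing a root subgroup, and the logarithmic bound
-/

set_option autoImplicit false

namespace Run7.h806.TV

open Matrix
open Pool.Agent.R167.HG (Ball SL Mt PSL)
open Pool.Agent.R167.HG.MainP

section gen

variable {G Q : Type} [Group G] [Group Q]

theorem ball_map (f : G →* Q) {S : Set G} {T : Set Q} (h : ∀ s ∈ S, f s ∈ T) {k : ℕ}
    {x : G} (hx : x ∈ Ball S k) : f x ∈ Ball T k := by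
  obtain ⟨l, h1, h2, h3⟩ := hx
  refine ⟨l.map f, by simpa using h1, ?_, by rw [← h3, map_list_prod]⟩
  intro z hz
  rw [List.mem_map] at hz
  obtain ⟨y, hy, rfl⟩ := hz
  rcases h2 y hy with h' | h'
  · exact Or.inl (h y h')
  · right
    rw [← map_inv]
    exact h _ h'

theorem closure_preimage (π : G →* Q) (hπ : Function.Surjective π) (S : Set Q)
    (hne : S.Nonempty) (hS : Subgroup.closure S = ⊤) : Subgroup.closure (π ⁻¹' S) = ⊤ := by
  obtain ⟨s0, hs0⟩ := hne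
  obtain ⟨g0, hg0⟩ := hπ s0
  have hker : π.ker ≤ Subgroup.closure (π ⁻¹' S) := by
    intro z hz
    rw [MonoidHom.mem_ker] at hz
    have h1 : g0 * z ∈ π ⁻¹' S := by
      change π (g0 * z) ∈ S
      rw [map_mul, hz, mul_one, hg0]; exact hs0
    have h0 : g0 ∈ π ⁻¹' S := by
      change π g0 ∈ S
      rw [hg0]; exact hs0
    have h2 : z = g0⁻¹ * (g0 * z) := by group
    rw [h2]
    exact mul_mem (inv_mem (Subgroup.subset_closure h0)) (Subgroup.subset_closure h1)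
  rw [← Subgroup.comap_map_eq_self hker, MonoidHom.map_closure, Set.image_preimage_eq S hπ, hS,
    Subgroup.comap_top]

/-- `A`-invariant sets and sets containing `A` -/
theorem ball_contain {A S : Set Q} (hA : A ⊆ S) {N : ℕ}
    (h : ∀ x, x ∈ Ball {y : Q | ∃ a ∈ A, ∃ s ∈ S, y = a * s * a⁻¹} N) (x : Q) :
    x ∈ Ball S (3 * N) := by
  obtain ⟨l, hl, hl', rfl⟩ := h x
  have h1 : ∀ y ∈ l, y ∈ Ball S 3 := by
    intro y hy
    have key : ∀ z, z ∈ {y : Q | ∃ a ∈ A, ∃ s ∈ S, y = a * s * a⁻¹} → z ∈ Ball S 3 := by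
      rintro z ⟨a, ha, s, hs, rfl⟩
      refine ⟨[a, s, a⁻¹], by simp, ?_, by simp [mul_assoc]⟩
      intro u hu
      simp only [List.mem_cons, List.not_mem_nil, or_false] at hu
      rcases hu with rfl | rfl | rfl
      · exact Or.inl (hA ha)
      · exact Or.inl hs
      · right
        rw [inv_inv]
        exact hA ha
    rcases hl' y hy with h2 | h2
    · exact key y h2
    · have := ball_inv (key _ h2)
      rwa [inv_inv] at this
  exact ball_mono (by rw [Nat.mul_comm 3]; exact Nat.mul_le_mul_right _ hl) (ball_list l h1)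

end gen

variable {m : ℕ} {F : Type} [Field F]

/-- quotients -/
theorem main_quot {Q : Type} [Group Q] (π : SL m F →* Q) (hπ : Function.Surjective π)
    {S : Set Q} {e φ : Fin (m + 1) → F} (h4 : ∃ s : Finset F, s.card = 4)
    (he : e ≠ 0) (hφ : φ ≠ 0) (h : φ ⬝ᵥ e = 0) (hS : Subgroup.closure S = ⊤)
    (hinv : ∀ c : F, ∀ s ∈ S, π (T (c • e) φ) * s * (π (T (c • e) φ))⁻¹ ∈ S) (x : Q) :
    x ∈ Ball S (341 * (m + 1) ^ 6) := by
  rcases S.eq_empty_or_nonempty with rfl | hne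
  · rw [Subgroup.closure_empty] at hS
    have hx : x ∈ (⊥ : Subgroup Q) := by rw [hS]; exact Subgroup.mem_top x
    rw [Subgroup.mem_bot] at hx
    rw [hx]
    exact ball_one
  · obtain ⟨g, rfl⟩ := hπ x
    have h1 : Inv (π ⁻¹' S) e φ := by
      refine ⟨closure_preimage π hπ S hne hS, fun c s hs => ?_⟩
      rw [Set.mem_preimage, map_mul, map_mul, map_inv]
      exact hinv c _ hs
    exact ball_map π (fun s hs => hs) (main h4 he hφ h h1 g)

/-- sets containing a root subgroup -/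
theorem main_contain {Q : Type} [Group Q] (π : SL m F →* Q) (hπ : Function.Surjective π)
    {S : Set Q} {e φ : Fin (m + 1) → F} (h4 : ∃ s : Finset F, s.card = 4)
    (he : e ≠ 0) (hφ : φ ≠ 0) (h : φ ⬝ᵥ e = 0) (hS : Subgroup.closure S = ⊤)
    (hcon : ∀ c : F, π (T (c • e) φ) ∈ S) (x : Q) :
    x ∈ Ball S (1023 * (m + 1) ^ 6) := by
  have hce : ∀ c : F, φ ⬝ᵥ (c • e) = 0 := fun c => by rw [dotProduct_smul, h, smul_zero]
  set A : Set Q := Set.range fun c : F => π (T (c • e) φ) with hA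
  have h2 : ∀ y, y ∈ Ball {y : Q | ∃ a ∈ A, ∃ s ∈ S, y = a * s * a⁻¹} (341 * (m + 1) ^ 6) := by
    apply main_quot π hπ h4 he hφ h
    · rw [eq_top_iff, ← hS, Subgroup.closure_le]
      intro s hs
      apply Subgroup.subset_closure
      refine ⟨π (T ((0 : F) • e) φ), ⟨0, rfl⟩, s, hs, ?_⟩
      rw [zero_smul, T_zero_left, map_one]
      simp
    · rintro c _ ⟨_, ⟨d, rfl⟩, s, hs, rfl⟩
      refine ⟨π (T ((c + d) • e) φ), ⟨c + d, rfl⟩, s, hs, ?_⟩
      rw [add_smul, ← T_add_left (hce c) (hce d), map_mul]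
      group
  have h3 := ball_contain (A := A) (by rintro _ ⟨c, rfl⟩; exact hcon c) h2 x
  exact ball_mono (by omega) h3

theorem card_psl_ge (F : Type) [Field F] [Finite F] (m : ℕ) (hF : 4 ≤ Nat.card F) (hm1 : 1 ≤ m) :
    Nat.card F ^ (m * (m + 1)) ≤ Nat.card (PSL m F) := by
  classical
  cases nonempty_fintype F
  have hfs : Finite (SL m F) := Finite.of_injective (fun g : SL m F => g.1) Subtype.val_injective
  have hfp : Finite (PSL m F) := Quotient.finite _
  choose t ht using Pool.Agent.R167.HG.gl_decomp F m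
  have hinj : Function.Injective t := by
    intro g g' h
    apply Units.ext
    rw [← ht g, ← ht g', h]
  have h1 := Nat.card_le_card_of_injective t hinj
  rw [Nat.card_prod, Nat.card_prod, Nat.card_units] at h1
  have h2 := Matrix.card_GL_field (𝔽 := F) (m + 1)
  rw [h2] at h1
  have hq : Fintype.card F = Nat.card F := Nat.card_eq_fintype_card.symm
  rw [hq] at h1
  set q := Nat.card F with hqdef
  have h3 : (q ^ m * (q - 1)) ^ (m + 1) ≤ ∏ i : Fin (m + 1), (q ^ (m + 1) - q ^ (i : ℕ)) := by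
    have h4 : ∏ _i : Fin (m + 1), (q ^ m * (q - 1)) = (q ^ m * (q - 1)) ^ (m + 1) := by simp
    rw [← h4]
    refine Finset.prod_le_prod' (fun i _ => ?_)
    have h5 : q ^ m * (q - 1) = q ^ (m + 1) - q ^ m := by
      rw [Nat.mul_sub, Nat.mul_one, pow_succ]
    rw [h5]
    exact Nat.sub_le_sub_left (Nat.pow_le_pow_right (by omega) (by omega)) _
  have h6 := le_trans h3 h1
  have h7 : (q - 1) ^ 2 * q ^ (m * (m + 1)) ≤ (q - 1) ^ 2 * Nat.card (PSL m F) := by
    calc (q - 1) ^ 2 * q ^ (m * (m + 1))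
        ≤ (q - 1) ^ (m + 1) * q ^ (m * (m + 1)) :=
          Nat.mul_le_mul_right _ (Nat.pow_le_pow_right (by omega) (by omega))
      _ = (q ^ m * (q - 1)) ^ (m + 1) := by rw [mul_pow, ← pow_mul]; ring
      _ ≤ (q - 1) * ((q - 1) * Nat.card (PSL m F)) := h6
      _ = (q - 1) ^ 2 * Nat.card (PSL m F) := by ring
  exact Nat.le_of_mul_le_mul_left h7 (pow_pos (by omega) 2)

theorem log_bound (F : Type) [Field F] [Finite F] (m : ℕ) (hF : 4 ≤ Nat.card F) (hm1 : 1 ≤ m) :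
    1023 * ((m : ℝ) + 1) ^ 6 ≤ (Real.log (Nat.card (PSL m F))) ^ 11 := by
  have h1 := card_psl_ge F m hF hm1
  have h2 : (4 : ℕ) ^ (m * (m + 1)) ≤ Nat.card (PSL m F) :=
    le_trans (Nat.pow_le_pow_left hF _) h1
  have h3 : ((4 : ℝ)) ^ (m * (m + 1)) ≤ (Nat.card (PSL m F) : ℝ) := by exact_mod_cast h2
  have h4 : Real.log ((4 : ℝ) ^ (m * (m + 1))) ≤ Real.log (Nat.card (PSL m F)) :=
    Real.log_le_log (by positivity) h3
  rw [Real.log_pow] at h4
  have hl : (1.38 : ℝ) ≤ Real.log 4 := by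
    have : (4 : ℝ) = 2 ^ 2 := by norm_num
    rw [this, Real.log_pow]
    have := Real.log_two_gt_d9
    push_cast
    linarith
  have hm' : (1 : ℝ) ≤ (m : ℝ) := by exact_mod_cast hm1
  have h5 : (1.38 : ℝ) * ((m : ℝ) * (m + 1)) ≤ Real.log (Nat.card (PSL m F)) := by
    refine le_trans ?_ h4
    push_cast
    nlinarith [mul_nonneg (by linarith : (0 : ℝ) ≤ m) (by linarith : (0 : ℝ) ≤ (m : ℝ) + 1)]
  have h6 : ((1.38 : ℝ) * ((m : ℝ) * (m + 1))) ^ 11 ≤ (Real.log (Nat.card (PSL m F))) ^ 11 :=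
    pow_le_pow_left₀ (by positivity) h5 11
  refine le_trans ?_ h6
  have h7 : (32 : ℝ) ≤ (m : ℝ) ^ 11 * ((m : ℝ) + 1) ^ 5 := by
    have h8 : (1 : ℝ) ≤ (m : ℝ) ^ 11 := one_le_pow₀ hm'
    have h9 : (2 : ℝ) ^ 5 ≤ ((m : ℝ) + 1) ^ 5 := pow_le_pow_left₀ (by norm_num) (by linarith) 5
    norm_num at h9
    nlinarith
  have h10 : ((1.38 : ℝ) * ((m : ℝ) * (m + 1))) ^ 11 =
      (1.38 : ℝ) ^ 11 * ((m : ℝ) ^ 11 * ((m : ℝ) + 1) ^ 5) * ((m : ℝ) + 1) ^ 6 := by ring
  rw [h10]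
  have h11 : (1023 : ℝ) ≤ (1.38 : ℝ) ^ 11 * ((m : ℝ) ^ 11 * ((m : ℝ) + 1) ^ 5) := by
    norm_num
    nlinarith
  exact mul_le_mul_of_nonneg_right h11 (by positivity)

end Run7.h806.TV
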