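import Pool.Agent.Run7.h806.TV.Short

/-!
# Quotients, subfields, logarithmic bounds
-/

set_option autoImplicit false

namespace Run7.h806.TV

open Matrix
open Pool.Agent.R167.HG (Ball SL Mt PSL)
open Pool.Agent.R167.HG.MainP

variable {m : ℕ} {F : Type} [Field F]

/-- the bound -/
def bd (m a : ℕ) : ℕ := 12 * (m + 1) ^ 3 * (12 * a + 4 * (m + 1) ^ 3 + 8 * (m + 1) ^ 2 + 2)

/-- quotients, short root subgroups -/
theorem short_quot {Q : Type} [Group Q] (π : SL m F →* Q) (hπ : Function.Surjective π)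
    {S : Set Q} {e φ : Fin (m + 1) → F} (he : e ≠ 0) (hφ : φ ≠ 0) (h : φ ⬝ᵥ e = 0)
    (hS : Subgroup.closure S = ⊤) {a : ℕ} (hX : R (π ⁻¹' S) a e φ) (x : Q) :
    x ∈ Ball S (bd m a) := by
  rcases S.eq_empty_or_nonempty with rfl | hne
  · rw [Subgroup.closure_empty] at hS
    have hx : x ∈ (⊥ : Subgroup Q) := by rw [hS]; exact Subgroup.mem_top x
    rw [Subgroup.mem_bot] at hx
    rw [hx]
    exact ball_one
  · obtain ⟨g, rfl⟩ := hπ x
    exact ball_map π (fun s hs => hs) (short (closure_preimage π hπ S hne hS) he hφ h hX g)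

/-- quotients, invariant sets -/
theorem inv_quot {Q : Type} [Group Q] (π : SL m F →* Q) (hπ : Function.Surjective π)
    {S : Set Q} {e φ : Fin (m + 1) → F} (hm : 2 ≤ m ∨ ∃ s : Finset F, s.card = 4)
    (he : e ≠ 0) (hφ : φ ≠ 0) (h : φ ⬝ᵥ e = 0) (hS : Subgroup.closure S = ⊤)
    (hinv : ∀ c : F, ∀ s ∈ S, π (T (c • e) φ) * s * (π (T (c • e) φ))⁻¹ ∈ S) (x : Q) :
    x ∈ Ball S (585 * (m + 1) ^ 6) := by
  rcases S.eq_empty_or_nonempty with rfl | hne
  · rw [Subgroup.closure_empty] at hS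
    have hx : x ∈ (⊥ : Subgroup Q) := by rw [hS]; exact Subgroup.mem_top x
    rw [Subgroup.mem_bot] at hx
    rw [hx]
    exact ball_one
  · obtain ⟨g, rfl⟩ := hπ x
    have h1 : Inv (π ⁻¹' S) e φ := by
      refine ⟨closure_preimage π hπ S hne hS, fun c s hs => ?_⟩
      rw [Set.mem_preimage, map_mul, map_mul, map_inv]
      exact hinv c _ hs
    exact ball_map π (fun s hs => hs) (inv_main hm he hφ h h1 g)

/-- an additive generating set of a finite field -/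
theorem span_len {p : ℕ} [Fact p.Prime] [CharP F p] [Finite F] {k : ℕ}
    (hk : Nat.card F = p ^ k) {A : Set F} (hA : AddSubgroup.closure A = ⊤) (c : F) :
    ∃ (b : Finset F) (z : F → ℤ), b.card ≤ k ∧ (∀ x ∈ b, x ∈ A) ∧
      (∀ x, (z x).natAbs ≤ p / 2) ∧ c = ∑ x ∈ b, z x • x := by
  let _ := ZMod.algebra F p
  have : Module.Finite (ZMod p) F := Module.Finite.of_finite
  have h1 : (c : F) ∈ Submodule.span (ZMod p) A := by
    have h2 : AddSubgroup.closure A ≤ (Submodule.span (ZMod p) A).toAddSubgroup := by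
      rw [AddSubgroup.closure_le]
      exact Submodule.subset_span
    apply h2
    rw [hA]
    trivial
  obtain ⟨b, f, hb, hbA, hc⟩ := span_finset A c h1
  have h3 : Nat.card F = Nat.card (ZMod p) ^ Module.finrank (ZMod p) F :=
    Module.natCard_eq_pow_finrank
  rw [Nat.card_zmod, hk] at h3
  have h4 := Nat.pow_right_injective (Fact.out : p.Prime).two_le h3
  refine ⟨b, fun x => (f x).valMinAbs, by rw [h4]; exact hb, hbA,
    fun x => ZMod.natAbs_valMinAbs_le _, ?_⟩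
  rw [hc]
  refine Finset.sum_congr rfl fun x _ => ?_
  conv_lhs => rw [← ZMod.coe_valMinAbs (f x)]
  exact Int.cast_smul_eq_zsmul (ZMod p) _ x

theorem ball_zpow {G : Type} [Group G] {S : Set G} {x : G} (hx : x ∈ S) (z : ℤ) :
    x ^ z ∈ Ball S z.natAbs := by
  have h1 : ∀ n : ℕ, x ^ n ∈ Ball S n := fun n =>
    ⟨List.replicate n x, by simp, by
      intro y hy
      rw [List.eq_of_mem_replicate hy]
      exact Or.inl hx, by simp⟩
  rcases Int.natAbs_eq z with h | h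
  · rw [h, zpow_natCast]
    exact h1 _
  · rw [h, _root_.zpow_neg, zpow_natCast, Int.natAbs_neg, Int.natAbs_natCast]
    exact ball_inv (h1 z.natAbs)

theorem R_of_gen {p : ℕ} [Fact p.Prime] [CharP F p] [Finite F] {k : ℕ}
    (hk : Nat.card F = p ^ k) {S : Set (SL m F)} {e φ : Fin (m + 1) → F} (h : φ ⬝ᵥ e = 0)
    (hA : AddSubgroup.closure {c : F | T (c • e) φ ∈ S} = ⊤) : R S (k * (p / 2)) e φ := by
  classical
  have hce : ∀ c : F, φ ⬝ᵥ (c • e) = 0 := fun c => by rw [dotProduct_smul, h, smul_zero]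
  have hX : ∀ a b : F, T ((a + b) • e) φ = T (a • e) φ * T (b • e) φ := by
    intro a b
    rw [T_add_left (hce a) (hce b), add_smul]
  intro c
  obtain ⟨b, z, hb, hbA, hz, rfl⟩ := span_len hk hA c
  have h0 : T ((0 : F) • e) φ = 1 := by rw [zero_smul, T_zero_left]
  let Y : Multiplicative F →* SL m F :=
    { toFun := fun c => T ((Multiplicative.toAdd c) • e) φ
      map_one' := h0
      map_mul' := fun a b => hX _ _ }
  have hY : ∀ (x : F) (n : ℤ), T ((n • x) • e) φ = (T (x • e) φ) ^ n := by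
    intro x n
    have h3 : Y (Multiplicative.ofAdd x ^ n) = Y (Multiplicative.ofAdd x) ^ n :=
      _root_.map_zpow Y _ n
    exact h3
  have key : ∀ b : Finset F, (∀ x ∈ b, x ∈ {c : F | T (c • e) φ ∈ S}) →
      T ((∑ x ∈ b, z x • x) • e) φ ∈ Ball S (b.card * (p / 2)) := by
    intro b
    induction b using Finset.induction_on with
    | empty =>
      intro _
      rw [Finset.sum_empty, h0]
      exact ball_one
    | insert a b ha ih =>
      intro hb
      rw [Finset.sum_insert ha, Finset.card_insert_of_notMem ha, hX, hY]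
      have hb' : T (a • e) φ ∈ S := hb a (Finset.mem_insert_self _ _)
      refine ball_mono ?_ (ball_mul (ball_zpow hb' (z a))
        (ih fun x hx => hb x (Finset.mem_insert_of_mem hx)))
      rw [Nat.succ_mul]
      have := hz a
      omega
  exact ball_mono (Nat.mul_le_mul_right _ hb) (key b hbA)

theorem psl_log (F : Type) [Field F] [Finite F] (m : ℕ) (hm1 : 1 ≤ m) :
    ((m : ℝ) * (m + 1)) * Real.log (Nat.card F) ≤ Real.log (Nat.card (PSL m F)) := by
  have hq2 : 2 ≤ Nat.card F := by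
    have := Finite.one_lt_card (α := F)
    omega
  have h1 : Nat.card F ^ (m * (m + 1)) ≤ Nat.card (PSL m F) := by
    classical
    cases nonempty_fintype F
    have hfs : Finite (SL m F) := Finite.of_injective (fun g : SL m F => g.1) Subtype.val_injective
    have hfp : Finite (PSL m F) := Quotient.finite _
    choose t ht using Pool.Agent.R167.HG.gl_decomp F m
    have hinj : Function.Injective t := by
      intro g g' h
      apply Units.ext
      rw [← ht g, ← ht g', h]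
    have h1 := Nat.card_le_card_of_injective t hinj
    rw [Nat.card_prod, Nat.card_prod, Nat.card_units] at h1
    have h2 := Matrix.card_GL_field (𝔽 := F) (m + 1)
    rw [h2] at h1
    have hq : Fintype.card F = Nat.card F := Nat.card_eq_fintype_card.symm
    rw [hq] at h1
    set q := Nat.card F with hqdef
    have h3 : (q ^ m * (q - 1)) ^ (m + 1) ≤ ∏ i : Fin (m + 1), (q ^ (m + 1) - q ^ (i : ℕ)) := by
      have h4 : ∏ _i : Fin (m + 1), (q ^ m * (q - 1)) = (q ^ m * (q - 1)) ^ (m + 1) := by simp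
      rw [← h4]
      refine Finset.prod_le_prod' (fun i _ => ?_)
      have h5 : q ^ m * (q - 1) = q ^ (m + 1) - q ^ m := by
        rw [Nat.mul_sub, Nat.mul_one, pow_succ]
      rw [h5]
      exact Nat.sub_le_sub_left (Nat.pow_le_pow_right (by omega) (by omega)) _
    have h6 := le_trans h3 h1
    have h7 : (q - 1) ^ 2 * q ^ (m * (m + 1)) ≤ (q - 1) ^ 2 * Nat.card (PSL m F) := by
      calc (q - 1) ^ 2 * q ^ (m * (m + 1))
          ≤ (q - 1) ^ (m + 1) * q ^ (m * (m + 1)) :=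
            Nat.mul_le_mul_right _ (Nat.pow_le_pow_right (by omega) (by omega))
        _ = (q ^ m * (q - 1)) ^ (m + 1) := by rw [mul_pow, ← pow_mul]; ring
        _ ≤ (q - 1) * ((q - 1) * Nat.card (PSL m F)) := h6
        _ = (q - 1) ^ 2 * Nat.card (PSL m F) := by ring
    exact Nat.le_of_mul_le_mul_left h7 (pow_pos (by omega) 2)
  have h3 : ((Nat.card F : ℝ)) ^ (m * (m + 1)) ≤ (Nat.card (PSL m F) : ℝ) := by exact_mod_cast h1
  have hq0 : (0 : ℝ) < (Nat.card F : ℝ) := by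
    have : (0 : ℕ) < Nat.card F := by omega
    exact_mod_cast this
  have h4 := Real.log_le_log (by positivity) h3
  rw [Real.log_pow] at h4
  push_cast at h4
  exact h4

/-- the two cases of a simple group -/
theorem core_ineq {L : ℝ} {m : ℕ} (h : (2 ≤ m ∧ 0.69 ≤ L) ∨ (1 ≤ m ∧ 1.38 ≤ L)) :
    585 * ((m : ℝ) + 1) ^ 6 ≤ ((m : ℝ) * (m + 1) * L) ^ 11 ∧
      170 * L * ((m : ℝ) + 1) ^ 6 ≤ ((m : ℝ) * (m + 1) * L) ^ 11 := by
  have e : ((m : ℝ) * (m + 1) * L) ^ 11 =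
      ((m : ℝ) ^ 11 * ((m : ℝ) + 1) ^ 5) * L ^ 11 * ((m : ℝ) + 1) ^ 6 := by ring
  have key : 585 ≤ ((m : ℝ) ^ 11 * ((m : ℝ) + 1) ^ 5) * L ^ 11 ∧
      170 * L ≤ ((m : ℝ) ^ 11 * ((m : ℝ) + 1) ^ 5) * L ^ 11 := by
    rcases h with ⟨hm, hL⟩ | ⟨hm, hL⟩
    · have hm' : (2 : ℝ) ≤ (m : ℝ) := by exact_mod_cast hm
      have a1 : (2 : ℝ) ^ 11 ≤ (m : ℝ) ^ 11 := pow_le_pow_left₀ (by norm_num) hm' 11
      have a2 : (3 : ℝ) ^ 5 ≤ ((m : ℝ) + 1) ^ 5 :=
        pow_le_pow_left₀ (by norm_num) (by linarith) 5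
      have a3 : (0.69 : ℝ) ^ 10 ≤ L ^ 10 := pow_le_pow_left₀ (by norm_num) hL 10
      have a4 : (2 : ℝ) ^ 11 * 3 ^ 5 ≤ (m : ℝ) ^ 11 * ((m : ℝ) + 1) ^ 5 :=
        mul_le_mul a1 a2 (by positivity) (by positivity)
      have a5 : (2 : ℝ) ^ 11 * 3 ^ 5 * (0.69 : ℝ) ^ 10 ≤
          (m : ℝ) ^ 11 * ((m : ℝ) + 1) ^ 5 * L ^ 10 :=
        mul_le_mul a4 a3 (by positivity) (by positivity)
      have a6 : (12000 : ℝ) ≤ (m : ℝ) ^ 11 * ((m : ℝ) + 1) ^ 5 * L ^ 10 := by
        refine le_trans ?_ a5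
        norm_num
      have a7 : (m : ℝ) ^ 11 * ((m : ℝ) + 1) ^ 5 * L ^ 11 =
          (m : ℝ) ^ 11 * ((m : ℝ) + 1) ^ 5 * L ^ 10 * L := by ring
      rw [a7]
      constructor <;> nlinarith
    · have hm' : (1 : ℝ) ≤ (m : ℝ) := by exact_mod_cast hm
      have a1 : (1 : ℝ) ^ 11 ≤ (m : ℝ) ^ 11 := pow_le_pow_left₀ (by norm_num) hm' 11
      have a2 : (2 : ℝ) ^ 5 ≤ ((m : ℝ) + 1) ^ 5 :=
        pow_le_pow_left₀ (by norm_num) (by linarith) 5
      have a3 : (1.38 : ℝ) ^ 10 ≤ L ^ 10 := pow_le_pow_left₀ (by norm_num) hL 10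
      have a4 : (1 : ℝ) ^ 11 * 2 ^ 5 ≤ (m : ℝ) ^ 11 * ((m : ℝ) + 1) ^ 5 :=
        mul_le_mul a1 a2 (by positivity) (by positivity)
      have a5 : (1 : ℝ) ^ 11 * 2 ^ 5 * (1.38 : ℝ) ^ 10 ≤
          (m : ℝ) ^ 11 * ((m : ℝ) + 1) ^ 5 * L ^ 10 :=
        mul_le_mul a4 a3 (by positivity) (by positivity)
      have a6 : (800 : ℝ) ≤ (m : ℝ) ^ 11 * ((m : ℝ) + 1) ^ 5 * L ^ 10 := by
        refine le_trans ?_ a5
        norm_num
      have a7 : (m : ℝ) ^ 11 * ((m : ℝ) + 1) ^ 5 * L ^ 11 =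
          (m : ℝ) ^ 11 * ((m : ℝ) + 1) ^ 5 * L ^ 10 * L := by ring
      rw [a7]
      constructor <;> nlinarith
  rw [e]
  exact ⟨mul_le_mul_of_nonneg_right key.1 (by positivity),
    mul_le_mul_of_nonneg_right key.2 (by positivity)⟩

theorem log_card (F : Type) [Field F] [Finite F] (m : ℕ)
    (h : 2 ≤ m ∨ (1 ≤ m ∧ 4 ≤ Nat.card F)) :
    (2 ≤ m ∧ 0.69 ≤ Real.log (Nat.card F)) ∨ (1 ≤ m ∧ 1.38 ≤ Real.log (Nat.card F)) := by
  have hq2 : 2 ≤ Nat.card F := by
    have := Finite.one_lt_card (α := F)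
    omega
  have hl2 := Real.log_two_gt_d9
  rcases h with h | ⟨h1, h2⟩
  · left
    refine ⟨h, ?_⟩
    have : Real.log 2 ≤ Real.log (Nat.card F) :=
      Real.log_le_log (by norm_num) (by exact_mod_cast hq2)
    linarith
  · right
    refine ⟨h1, ?_⟩
    have h3 : Real.log 4 ≤ Real.log (Nat.card F) :=
      Real.log_le_log (by norm_num) (by exact_mod_cast h2)
    have h4 : (4 : ℝ) = 2 ^ 2 := by norm_num
    rw [h4, Real.log_pow] at h3
    push_cast at h3
    linarith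

theorem log_inv (F : Type) [Field F] [Finite F] (m : ℕ)
    (h : 2 ≤ m ∨ (1 ≤ m ∧ 4 ≤ Nat.card F)) :
    585 * ((m : ℝ) + 1) ^ 6 ≤ (Real.log (Nat.card (PSL m F))) ^ 11 := by
  have hm1 : 1 ≤ m := by omega
  have h1 := (core_ineq (log_card F m h)).1
  refine h1.trans (pow_le_pow_left₀ ?_ (psl_log F m hm1) 11)
  have : 0 ≤ Real.log (Nat.card F) := Real.log_natCast_nonneg _
  positivity

theorem log_short (F : Type) [Field F] [Finite F] (m p k : ℕ) (hp : 2 ≤ p)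
    (hp3 : p ≤ 3) (hk : Nat.card F = p ^ k) (h : 2 ≤ m ∨ (1 ≤ m ∧ 4 ≤ Nat.card F)) :
    (bd m (k * (p / 2)) : ℝ) ≤ (Real.log (Nat.card (PSL m F))) ^ 11 := by
  have hm1 : 1 ≤ m := by omega
  have hp2 : p / 2 = 1 := by omega
  have h1 := (core_ineq (log_card F m h)).2
  have hL0 : 0 ≤ Real.log (Nat.card F) := Real.log_natCast_nonneg _
  have h2 : 170 * Real.log (Nat.card F) * ((m : ℝ) + 1) ^ 6 ≤
      (Real.log (Nat.card (PSL m F))) ^ 11 := by
    refine h1.trans (pow_le_pow_left₀ ?_ (psl_log F m hm1) 11)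
    positivity
  refine le_trans ?_ h2
  have hk0 : 1 ≤ k := by
    rcases Nat.eq_zero_or_pos k with rfl | hk0
    · rw [pow_zero] at hk
      have := Finite.one_lt_card (α := F)
      omega
    · exact hk0
  have h3 : bd m (k * (p / 2)) ≤ 117 * k * (m + 1) ^ 6 := by
    rw [hp2]
    unfold bd
    obtain ⟨j, rfl⟩ : ∃ j, m = j + 1 := ⟨m - 1, by omega⟩
    obtain ⟨i, rfl⟩ : ∃ i, k = i + 1 := ⟨k - 1, by omega⟩
    have h5 : 12 * ((i + 1) * 1) + 4 * (j + 1 + 1) ^ 3 + 8 * (j + 1 + 1) ^ 2 + 2 ≤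
        (39 * (i + 1) * (j + 1 + 1) ^ 3) / 4 := by
      rw [Nat.le_div_iff_mul_le (by norm_num)]
      ring_nf
      nlinarith [Nat.zero_le i, Nat.zero_le j, Nat.zero_le (i * j), Nat.zero_le (j ^ 2),
        Nat.zero_le (j ^ 3), Nat.zero_le (i * j ^ 2), Nat.zero_le (i * j ^ 3)]
    calc 12 * (j + 1 + 1) ^ 3 * (12 * ((i + 1) * 1) + 4 * (j + 1 + 1) ^ 3 +
          8 * (j + 1 + 1) ^ 2 + 2)
        ≤ 12 * (j + 1 + 1) ^ 3 * ((39 * (i + 1) * (j + 1 + 1) ^ 3) / 4) :=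
          Nat.mul_le_mul_left _ h5
      _ = 3 * (j + 1 + 1) ^ 3 * (4 * ((39 * (i + 1) * (j + 1 + 1) ^ 3) / 4)) := by ring
      _ ≤ 3 * (j + 1 + 1) ^ 3 * (39 * (i + 1) * (j + 1 + 1) ^ 3) :=
          Nat.mul_le_mul_left _ (Nat.mul_div_le _ _)
      _ = 117 * (i + 1) * (j + 1 + 1) ^ 6 := by ring
  have h4 : (bd m (k * (p / 2)) : ℝ) ≤ 117 * k * ((m : ℝ) + 1) ^ 6 := by exact_mod_cast h3
  refine h4.trans (mul_le_mul_of_nonneg_right ?_ (by positivity))
  rw [hk]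
  push_cast
  rw [Real.log_pow]
  have h6 : Real.log 2 ≤ Real.log p := Real.log_le_log (by norm_num) (by exact_mod_cast hp)
  have h7 := Real.log_two_gt_d9
  have h8 : (0 : ℝ) ≤ k := by positivity
  nlinarith

end Run7.h806.TV
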