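import Pool.Agent.Run7.h806.TV.Fin

/-!
# Generating sets with a short root subgroup, over any field
-/

set_option autoImplicit false

namespace Run7.h806.TV

open Matrix
open Pool.Agent.R167.HG (Ball SL Mt PSL)
open Pool.Agent.R167.HG.MainP

variable {m : ℕ} {F : Type} [Field F]

/-- if the root subgroup of `(e, φ)` is short, every element is short -/
theorem short {S : Set (SL m F)} (hS : Subgroup.closure S = ⊤) {e φ : Fin (m + 1) → F}
    (he : e ≠ 0) (hφ : φ ≠ 0) (h : φ ⬝ᵥ e = 0) {a : ℕ} (hX : R S a e φ) (g : SL m F) :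
    g ∈ Ball S (12 * (m + 1) ^ 3 * (12 * a + 4 * (m + 1) ^ 3 + 8 * (m + 1) ^ 2 + 2)) := by
  obtain ⟨w, hw, hp, hp'⟩ := exists_gen hS he hφ h
  have hY := hX.conj hw
  have hA := axis hS h (by rw [pair_conj, h]) hp hp' hX hY
  have hAll := all hS hφ hA
  obtain ⟨l, hl, hT, rfl⟩ := Pool.Agent.R167.HG.t_GAUSS F m g
  have key : ∀ x ∈ l, x ∈ Ball S ((m + 1) * (3 * ((m + 1) * (8 * a +
      4 * (m + 1) ^ 3 + 4 * (a + 2 * (m + 1) ^ 2)) + 2 * (m + 1)))) := by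
    intro x hx
    obtain ⟨f, ψ, hx, hd, -⟩ := hT x hx
    have h1 := hAll f ψ hd 1
    rwa [one_smul, ← T_eq hd hx] at h1
  refine ball_mono ?_ (ball_list l key)
  refine (Nat.mul_le_mul_right _ (hl.trans (Nat.mul_le_mul_left 4 (Nat.le_succ m)))).trans
    (le_of_eq ?_)
  rw [Nat.succ_eq_add_one]
  ring

/-- balls for a set and the union with the root subgroup -/
theorem ball_union {G : Type} [Group G] (X : F → G) (hX : ∀ a b, X (a + b) = X a * X b)
    {S : Set G} (hS : ∀ c, ∀ s ∈ S, X c * s * (X c)⁻¹ ∈ S) {k : ℕ} {g : G}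
    (hg : g ∈ Ball (S ∪ Set.range X) k) : PP X S k g := by
  obtain ⟨l, hl, hl', rfl⟩ := hg
  have hPP1 : ∀ x, (x ∈ S ∪ Set.range X ∨ x⁻¹ ∈ S ∪ Set.range X) → PP X S 1 x := by
    intro x hx
    rcases hx with (hx | ⟨c, rfl⟩) | (hx | ⟨c, hc⟩)
    · exact ⟨x, ⟨[x], by simp, by simpa using Or.inl hx, by simp⟩, 0, by
        rw [X_zero X hX, mul_one]⟩
    · exact ⟨1, ball_one, c, by rw [one_mul]⟩
    · exact ⟨x, ⟨[x], by simp, by simpa using Or.inr hx, by simp⟩, 0, by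
        rw [X_zero X hX, mul_one]⟩
    · exact ⟨1, ball_one, -c, by rw [one_mul, X_neg X hX, hc, inv_inv]⟩
  have h1 : ∀ l : List G, (∀ x ∈ l, x ∈ S ∪ Set.range X ∨ x⁻¹ ∈ S ∪ Set.range X) →
      PP X S l.length l.prod := by
    intro l
    induction l with
    | nil => exact fun _ => ⟨1, ball_one, 0, by rw [X_zero X hX]; simp⟩
    | cons a l ih =>
      intro h
      rw [List.prod_cons, List.length_cons, Nat.add_comm]
      exact PP_mul X hX hS (hPP1 a (h a List.mem_cons_self))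
        (ih fun x hx => h x (List.mem_cons_of_mem _ hx))
  obtain ⟨b, hb, c, hc⟩ := h1 l hl'
  exact ⟨b, ball_mono hl hb, c, hc⟩

theorem PP_commutator {G : Type} [Group G] (X : F → G) (hX : ∀ a b, X (a + b) = X a * X b)
    {S : Set G} (hS : ∀ c, ∀ s ∈ S, X c * s * (X c)⁻¹ ∈ S) {k : ℕ} {g h : G}
    (hg : PP X S k g) (hh : PP X S k h) : g * h * g⁻¹ * h⁻¹ ∈ Ball S (4 * k) := by
  obtain ⟨b1, hb1, c1, rfl⟩ := hg
  obtain ⟨b2, hb2, c2, rfl⟩ := hh
  have h1 : X c1 * X c2 = X c2 * X c1 := by rw [← hX, ← hX, add_comm]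
  have h2 : b1 * X c1 * (b2 * X c2) * (b1 * X c1)⁻¹ * (b2 * X c2)⁻¹ =
      (b1 * (X c1 * b2 * (X c1)⁻¹)) * (b2 * (X c2 * b1 * (X c2)⁻¹))⁻¹ := by
    have h3 : (X c1)⁻¹ * (X c2)⁻¹ = (X c2)⁻¹ * (X c1)⁻¹ := by
      rw [← _root_.mul_inv_rev, ← _root_.mul_inv_rev, h1]
    calc b1 * X c1 * (b2 * X c2) * (b1 * X c1)⁻¹ * (b2 * X c2)⁻¹
        = b1 * X c1 * b2 * (X c2 * (X c1)⁻¹) * b1⁻¹ * (X c2)⁻¹ * b2⁻¹ := by group
      _ = b1 * X c1 * b2 * ((X c1)⁻¹ * X c2) * b1⁻¹ * (X c2)⁻¹ * b2⁻¹ := by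
        have : X c2 * (X c1)⁻¹ = (X c1)⁻¹ * X c2 := by
          rw [← X_neg X hX, ← hX, ← hX, add_comm]
        rw [this]
      _ = _ := by group
  rw [h2]
  exact ball_mono (by omega) (ball_mul (ball_mul hb1 (ball_conj X hS c1 hb2))
    (ball_inv (ball_mul hb2 (ball_conj X hS c2 hb1))))

/-- the torus element -/
theorem torus_elt {e φ f ψ : Fin (m + 1) → F} (h : φ ⬝ᵥ e = 0) (hψf : ψ ⬝ᵥ f = 0)
    (hp : φ ⬝ᵥ f = 1) (hp' : ψ ⬝ᵥ e = 1) {α : F} (hα : α ≠ 0) :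
    ∃ hh : SL m F, ∀ c : F, hh * T (c • e) φ * hh⁻¹ = T ((α ^ 2 * c) • e) φ := by
  have hce : ∀ c : F, φ ⬝ᵥ (c • e) = 0 := fun c => by rw [dotProduct_smul, h, smul_zero]
  have hcf : ∀ c : F, ψ ⬝ᵥ (c • f) = 0 := fun c => by rw [dotProduct_smul, hψf, smul_zero]
  set d1 := α - 1 with hd1
  set d2 := - d1 / α with hd2
  set hh : SL m F := T (d2 • f) ψ * (T ((1 : F) • e) φ * T (d1 • f) ψ) with hhdef
  have b1 : 1 + d1 = α := by
    rw [hd1]
    ring
  have b2 : d1 + α * d2 = 0 := by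
    rw [hd2]
    field_simp
    ring
  have e1 : hh.1 *ᵥ e = α • e := by
    show ((T (d2 • f) ψ).1 * ((T ((1 : F) • e) φ).1 * (T (d1 • f) ψ).1)) *ᵥ e = _
    rw [← mulVec_mulVec, ← mulVec_mulVec, T_mulVec (hcf d1), T_mulVec (hce 1), T_mulVec (hcf d2)]
    simp only [dotProduct_add, dotProduct_smul, h, hψf, hp, hp', smul_eq_mul, one_smul]
    ext i
    simp only [Pi.add_apply, Pi.smul_apply, smul_eq_mul]
    linear_combination (e i + f i * d2) * b1 + (f i) * b2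
  have e2 : φ ᵥ* (hh⁻¹).1 = α • φ := by
    have e3 : (hh⁻¹).1 = ((T (d1 • f) ψ)⁻¹).1 * ((T ((1 : F) • e) φ)⁻¹).1 *
        ((T (d2 • f) ψ)⁻¹).1 := by
      rw [hhdef, _root_.mul_inv_rev, _root_.mul_inv_rev]
      rfl
    rw [e3, ← vecMul_vecMul, ← vecMul_vecMul, T_vecMul_inv (hcf d1), T_vecMul_inv (hce 1),
      T_vecMul_inv (hcf d2)]
    simp only [sub_dotProduct, smul_dotProduct, dotProduct_smul, h, hψf, hp, hp',
      smul_eq_mul, one_smul]
    ext i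
    simp only [Pi.sub_apply, Pi.smul_apply, smul_eq_mul]
    linear_combination (φ i - ψ i * d2) * b1 - (ψ i) * b2
  refine ⟨hh, fun c => ?_⟩
  rw [T_conj, mulVec_smul, e1, e2, ← T_smul]
  congr 1
  rw [smul_smul, smul_smul]
  congr 1
  ring

theorem exists_fψ {e φ : Fin (m + 1) → F} (he : e ≠ 0) (hφ : φ ≠ 0) (h : φ ⬝ᵥ e = 0) :
    ∃ f ψ : Fin (m + 1) → F, ψ ⬝ᵥ f = 0 ∧ φ ⬝ᵥ f = 1 ∧ ψ ⬝ᵥ e = 1 := by
  obtain ⟨f, hf⟩ := exists_dot_eq_one hφ
  rw [dotProduct_comm] at hf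
  obtain ⟨ψ0, hψ0⟩ := exists_dot_eq_one he
  refine ⟨f, ψ0 - (ψ0 ⬝ᵥ f) • φ, ?_, hf, ?_⟩
  · rw [sub_dotProduct, smul_dotProduct, hf, smul_eq_mul]; ring
  · rw [sub_dotProduct, smul_dotProduct, h, hψ0, smul_zero, sub_zero]

/-- every element of the root subgroup is a commutator -/
theorem X_comm {e φ : Fin (m + 1) → F} (he : e ≠ 0) (hφ : φ ≠ 0) (h : φ ⬝ᵥ e = 0)
    (hm : 2 ≤ m ∨ ∃ s : Finset F, s.card = 4) (c : F) :
    ∃ g k : SL m F, g * k * g⁻¹ * k⁻¹ = T (c • e) φ := by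
  have hce : ∀ c : F, φ ⬝ᵥ (c • e) = 0 := fun c => by rw [dotProduct_smul, h, smul_zero]
  rcases hm with hm | h4
  · have hw : ∃ w : Fin (m + 1) → F, φ ⬝ᵥ w = 0 ∧ w ∉ Submodule.span F {e} := by
      by_contra hcon
      push Not at hcon
      have h1 : LinearMap.ker (dotProductEquiv F (Fin (m + 1)) φ) ≤ Submodule.span F {e} := by
        intro w hw
        rw [LinearMap.mem_ker, dotProductEquiv_apply_apply] at hw
        exact hcon w hw
      have h2 := Submodule.finrank_mono h1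
      have h3 := LinearMap.finrank_range_add_finrank_ker (dotProductEquiv F (Fin (m + 1)) φ)
      have h4 : Module.finrank F (LinearMap.range (dotProductEquiv F (Fin (m + 1)) φ)) ≤ 1 := by
        refine (Submodule.finrank_le _).trans ?_
        rw [Module.finrank_self]
      have h5 : Module.finrank F (Submodule.span F {e}) ≤ 1 := (finrank_span_singleton he).le
      rw [Module.finrank_fin_fun] at h3
      omega
    obtain ⟨w, hw, hwe⟩ := hw
    obtain ⟨ℓ, hℓ, hℓ2⟩ := Submodule.exists_dual_map_eq_bot_of_notMem hwe inferInstance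
    obtain ⟨χ, rfl⟩ := (dotProductEquiv F (Fin (m + 1))).surjective ℓ
    rw [dotProductEquiv_apply_apply] at hℓ
    have hχe : χ ⬝ᵥ e = 0 := by
      have h1 : (dotProductEquiv F (Fin (m + 1)) χ) e ∈
          (Submodule.span F {e}).map (dotProductEquiv F (Fin (m + 1)) χ) :=
        Submodule.mem_map_of_mem (Submodule.mem_span_singleton_self e)
      rw [hℓ2, Submodule.mem_bot, dotProductEquiv_apply_apply] at h1
      exact h1
    refine ⟨T e ((c / χ ⬝ᵥ w) • χ), T w φ, ?_⟩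
    have h1 : ((c / χ ⬝ᵥ w) • χ) ⬝ᵥ e = 0 := by rw [smul_dotProduct, hχe, smul_zero]
    rw [T_tconj h1, h, zero_smul, sub_zero, smul_dotProduct, smul_eq_mul, div_mul_cancel₀ _ hℓ,
      add_comm w (c • e), ← T_add_left (hce c) hw, mul_inv_cancel_right]
  · obtain ⟨α, hα, hα2⟩ := exists_alpha h4
    obtain ⟨f, ψ, h1, h2, h3⟩ := exists_fψ he hφ h
    obtain ⟨hh, hhc⟩ := torus_elt h h1 h2 h3 hα
    refine ⟨hh, T ((c / (α ^ 2 - 1)) • e) φ, ?_⟩
    rw [hhc, T_inv (hce _), ← neg_smul, T_add_left (hce _) (hce _), ← add_smul]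
    congr 2
    have : α ^ 2 - 1 ≠ 0 := sub_ne_zero.2 hα2
    field_simp
    ring

/-- invariant generating sets -/
theorem inv_main {S : Set (SL m F)} {e φ : Fin (m + 1) → F}
    (hm : 2 ≤ m ∨ ∃ s : Finset F, s.card = 4) (he : e ≠ 0) (hφ : φ ≠ 0) (h : φ ⬝ᵥ e = 0)
    (hS : Inv S e φ) (g : SL m F) : g ∈ Ball S (585 * (m + 1) ^ 6) := by
  have hce : ∀ c : F, φ ⬝ᵥ (c • e) = 0 := fun c => by rw [dotProduct_smul, h, smul_zero]
  set X : F → SL m F := fun c => T (c • e) φ with hXdef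
  have hX : ∀ a b, X (a + b) = X a * X b := by
    intro a b
    show T ((a + b) • e) φ = T (a • e) φ * T (b • e) φ
    rw [T_add_left (hce a) (hce b), add_smul]
  have h1 : Subgroup.closure (S ∪ Set.range X) = ⊤ := by
    rw [eq_top_iff, ← hS.1]
    exact Subgroup.closure_mono Set.subset_union_left
  have h2 : R (S ∪ Set.range X) 1 e φ := fun c =>
    ⟨[T (c • e) φ], by simp, by
      intro x hx
      rw [List.mem_singleton.1 hx]
      exact Or.inl (Or.inr ⟨c, rfl⟩), by simp⟩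
  set D := 12 * (m + 1) ^ 3 * (12 * 1 + 4 * (m + 1) ^ 3 + 8 * (m + 1) ^ 2 + 2) with hD
  have h3 : ∀ g : SL m F, PP X S D g := fun g =>
    ball_union X hX hS.2 (short h1 he hφ h h2 g)
  have h4 : ∀ c, X c ∈ Ball S (4 * D) := by
    intro c
    obtain ⟨g, k, hgk⟩ := X_comm he hφ h hm c
    have := PP_commutator X hX hS.2 (h3 g) (h3 k)
    rwa [hgk] at this
  obtain ⟨b, hb, c, rfl⟩ := h3 g
  refine ball_mono ?_ (ball_mul hb (h4 c))
  have hm1 : 1 ≤ m := by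
    rcases Nat.eq_zero_or_pos m with rfl | hm
    · exfalso
      have h1 : φ 0 * e 0 = 0 := by simpa [dotProduct] using h
      have hi : ∀ i : Fin (0 + 1), i = 0 := fun i => Fin.ext (by
        have := i.isLt
        rw [Fin.val_zero]
        omega)
      rcases mul_eq_zero.1 h1 with h2 | h2
      · exact hφ (funext fun i => by rw [hi i, h2]; rfl)
      · exact he (funext fun i => by rw [hi i, h2]; rfl)
    · exact hm
  obtain ⟨k, rfl⟩ : ∃ k, m = k + 1 := ⟨m - 1, by omega⟩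
  rw [hD]
  ring_nf
  omega

end Run7.h806.TV
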