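import Pool.Agent.Run7.h806.TV.Avoid

/-!
# Elements of small support: linear algebra
-/

set_option autoImplicit false

namespace Run7.h806.TV

open Matrix
open Pool.Agent.R167.HG (Ball SL Mt PSL)
open Pool.Agent.R167.HG.MainP

variable {m : ℕ} {F : Type} [Field F]

theorem sep_sub (W : Submodule F (Fin (m + 1) → F)) {x : Fin (m + 1) → F} (hx : x ∉ W) :
    ∃ θ : Fin (m + 1) → F, θ ⬝ᵥ x = 1 ∧ ∀ w ∈ W, θ ⬝ᵥ w = 0 := by
  obtain ⟨ℓ, hℓ, hℓ2⟩ := Submodule.exists_dual_map_eq_bot_of_notMem hx inferInstance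
  obtain ⟨χ, rfl⟩ := (dotProductEquiv F (Fin (m + 1))).surjective ℓ
  rw [dotProductEquiv_apply_apply] at hℓ
  have hχ : ∀ w ∈ W, χ ⬝ᵥ w = 0 := by
    intro w hw
    have h1 : (dotProductEquiv F (Fin (m + 1)) χ) w ∈
        W.map (dotProductEquiv F (Fin (m + 1)) χ) := Submodule.mem_map_of_mem hw
    rw [hℓ2, Submodule.mem_bot, dotProductEquiv_apply_apply] at h1
    exact h1
  refine ⟨(χ ⬝ᵥ x)⁻¹ • χ, ?_, ?_⟩
  · rw [smul_dotProduct, smul_eq_mul, inv_mul_cancel₀ hℓ]
  · intro w hw
    rw [smul_dotProduct, hχ w hw, smul_zero]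

theorem move1 (W : Submodule F (Fin (m + 1) → F)) {x y : Fin (m + 1) → F} (hx : x ∉ W)
    (hy : y - x ∈ W ∨ y ∉ W ⊔ Submodule.span F {x}) :
    ∃ h : SL m F, (∀ w ∈ W, h.1 *ᵥ w = w) ∧ h.1 *ᵥ x = y := by
  have hθ : ∃ θ : Fin (m + 1) → F, θ ⬝ᵥ x = 1 ∧ θ ⬝ᵥ y = 1 ∧ ∀ w ∈ W, θ ⬝ᵥ w = 0 := by
    obtain ⟨θ, h1, h2⟩ := sep_sub W hx
    rcases hy with hy | hy
    · refine ⟨θ, h1, ?_, h2⟩
      have := h2 _ hy
      rw [dotProduct_sub, sub_eq_zero] at this
      rw [this, h1]
    · obtain ⟨θ', h3, h4⟩ := sep_sub _ hy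
      refine ⟨θ + (1 - θ ⬝ᵥ y) • θ', ?_, ?_, ?_⟩
      · rw [add_dotProduct, smul_dotProduct, h1,
          h4 x (Submodule.mem_sup_right (Submodule.mem_span_singleton_self x)), smul_zero, add_zero]
      · rw [add_dotProduct, smul_dotProduct, h3, smul_eq_mul]
        ring
      · intro w hw
        rw [add_dotProduct, smul_dotProduct, h2 w hw, h4 w (Submodule.mem_sup_left hw), smul_zero,
          add_zero]
  obtain ⟨θ, h1, h2, h3⟩ := hθ
  have h4 : θ ⬝ᵥ (y - x) = 0 := by rw [dotProduct_sub, h1, h2, sub_self]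
  refine ⟨T (y - x) θ, fun w hw => ?_, ?_⟩
  · rw [T_mulVec h4, h3 w hw, zero_smul, add_zero]
  · rw [T_mulVec h4, h1, one_smul, add_sub_cancel]

theorem move (W : Submodule F (Fin (m + 1) → F)) (hW : Module.finrank F W + 2 ≤ m + 1)
    {x y : Fin (m + 1) → F} (hx : x ∉ W) (hy : y ∉ W) :
    ∃ h : SL m F, (∀ w ∈ W, h.1 *ᵥ w = w) ∧ h.1 *ᵥ x = y := by
  by_cases h1 : y - x ∈ W
  · exact move1 W hx (Or.inl h1)
  by_cases h2 : y ∈ W ⊔ Submodule.span F {x}
  · have hz : ∃ z, z ∉ W ⊔ Submodule.span F {x} := by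
      by_contra hcon
      push Not at hcon
      have h3 : W ⊔ Submodule.span F {x} = ⊤ := by
        rw [eq_top_iff]
        intro z _
        exact hcon z
      have h4 := Submodule.finrank_add_le_finrank_add_finrank W (Submodule.span F {x})
      rw [h3, finrank_top, Module.finrank_fin_fun] at h4
      have h5 : Module.finrank F (Submodule.span F {x}) ≤ 1 := by
        have hx0 : x ≠ 0 := by
          rintro rfl
          exact hx W.zero_mem
        exact (finrank_span_singleton hx0).le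
      omega
    obtain ⟨z, hz⟩ := hz
    have hzW : z ∉ W := fun h => hz (Submodule.mem_sup_left h)
    obtain ⟨g1, a1, a2⟩ := move1 W hx (Or.inr hz)
    have hyz : y ∉ W ⊔ Submodule.span F {z} := by
      intro h3
      rw [Submodule.mem_sup] at h3
      obtain ⟨w, hw, s, hs, hws⟩ := h3
      rw [Submodule.mem_span_singleton] at hs
      obtain ⟨c, rfl⟩ := hs
      by_cases hc : c = 0
      · rw [hc, zero_smul, add_zero] at hws
        rw [← hws] at hy
        exact hy hw
      · apply hz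
        have h4 : z = c⁻¹ • (y - w) := by
          rw [← hws, add_sub_cancel_left, smul_smul, inv_mul_cancel₀ hc, one_smul]
        rw [h4]
        exact Submodule.smul_mem _ _ (Submodule.sub_mem _ h2 (Submodule.mem_sup_left hw))
    obtain ⟨g2, b1, b2⟩ := move1 W hzW (Or.inr hyz)
    refine ⟨g2 * g1, fun w hw => ?_, ?_⟩
    · show (g2.1 * g1.1) *ᵥ w = w
      rw [← mulVec_mulVec, a1 w hw, b1 w hw]
    · show (g2.1 * g1.1) *ᵥ x = y
      rw [← mulVec_mulVec, a2, b2]
  · exact move1 W hx (Or.inr h2)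

theorem mulVec_inj (g : SL m F) {x y : Fin (m + 1) → F} (h : g.1 *ᵥ x = g.1 *ᵥ y) : x = y := by
  have h1 : (g⁻¹).1 * g.1 = 1 := congrArg Subtype.val (inv_mul_cancel g)
  have h2 := congrArg (fun z => (g⁻¹).1 *ᵥ z) h
  simp only [mulVec_mulVec, h1, one_mulVec] at h2
  exact h2

theorem inv_mulVec (g : SL m F) {x y : Fin (m + 1) → F} (h : g.1 *ᵥ x = y) :
    (g⁻¹).1 *ᵥ y = x := by
  have h1 : (g⁻¹).1 * g.1 = 1 := congrArg Subtype.val (inv_mul_cancel g)
  rw [← h, mulVec_mulVec, h1, one_mulVec]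

theorem trans_fin : ∀ s : ℕ, s ≤ m → ∀ v w : Fin s → (Fin (m + 1) → F),
    LinearIndependent F v → LinearIndependent F w → ∃ g : SL m F, ∀ i, g.1 *ᵥ v i = w i := by
  intro s
  induction s with
  | zero => exact fun _ v w _ _ => ⟨1, fun i => i.elim0⟩
  | succ s ih =>
    intro hs v w hv hw
    rw [linearIndependent_finSucc'] at hv hw
    obtain ⟨g, hg⟩ := ih (by omega) (Fin.init v) (Fin.init w) hv.1 hw.1
    set W := Submodule.span F (Set.range (Fin.init w)) with hWdef
    have hWr : Module.finrank F W = s := by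
      rw [hWdef, finrank_span_eq_card hw.1, Fintype.card_fin]
    have hx : g.1 *ᵥ v (Fin.last s) ∉ W := by
      intro h1
      apply hv.2
      have h2 : W = (Submodule.span F (Set.range (Fin.init v))).map g.1.mulVecLin := by
        rw [hWdef, Submodule.map_span, ← Set.range_comp]
        congr 2
        funext i
        exact (hg i).symm
      rw [h2, Submodule.mem_map] at h1
      obtain ⟨u, hu, hu2⟩ := h1
      rw [mulVecLin_apply] at hu2
      rw [← mulVec_inj g hu2]
      exact hu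
    obtain ⟨h, h1, h2⟩ := move W (by omega) hx hw.2
    refine ⟨h * g, fun i => ?_⟩
    show (h.1 * g.1) *ᵥ v i = w i
    rw [← mulVec_mulVec]
    rcases Fin.eq_castSucc_or_eq_last i with ⟨j, rfl⟩ | rfl
    · have h3 : g.1 *ᵥ v j.castSucc = w j.castSucc := hg j
      rw [h3]
      exact h1 _ (Submodule.subset_span ⟨j, rfl⟩)
    · exact h2

theorem trans_fintype {ι : Type} [Fintype ι] (h : Fintype.card ι ≤ m)
    (v w : ι → (Fin (m + 1) → F)) (hv : LinearIndependent F v) (hw : LinearIndependent F w) :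
    ∃ g : SL m F, ∀ i, g.1 *ᵥ v i = w i := by
  classical
  let e := Fintype.equivFin ι
  obtain ⟨g, hg⟩ := trans_fin (Fintype.card ι) h (v ∘ e.symm) (w ∘ e.symm)
    (hv.comp _ e.symm.injective) (hw.comp _ e.symm.injective)
  refine ⟨g, fun i => ?_⟩
  have := hg (e i)
  simpa using this

/-- the range of a matrix -/
noncomputable abbrev rg (A : Mt m F) : Submodule F (Fin (m + 1) → F) := LinearMap.range A.mulVecLin

theorem decomp (A : Mt m F) {r : ℕ} (hr : Module.finrank F (rg A) = r) :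
    ∃ v ψ y : Fin r → (Fin (m + 1) → F), LinearIndependent F v ∧
      (∀ x, A *ᵥ x = ∑ i, (ψ i ⬝ᵥ x) • v i) ∧ (∀ i j, ψ i ⬝ᵥ y j = if i = j then 1 else 0) ∧
      ∀ i x, A *ᵥ x = 0 → ψ i ⬝ᵥ x = 0 := by
  subst hr
  let b := Module.finBasis F (rg A)
  let cf : Fin (Module.finrank F (rg A)) → Module.Dual F (Fin (m + 1) → F) := fun i =>
    b.coord i ∘ₗ A.mulVecLin.rangeRestrict
  have hψ : ∀ i x, ((dotProductEquiv F (Fin (m + 1))).symm (cf i)) ⬝ᵥ x =
      b.coord i (A.mulVecLin.rangeRestrict x) := by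
    intro i x
    rw [← dotProductEquiv_apply_apply, LinearEquiv.apply_symm_apply]
    rfl
  have hy : ∀ j, ∃ y, A.mulVecLin.rangeRestrict y = b j := fun j =>
    LinearMap.surjective_rangeRestrict _ (b j)
  choose y hy using hy
  refine ⟨fun i => (b i : Fin (m + 1) → F), fun i => (dotProductEquiv F (Fin (m + 1))).symm (cf i),
    y, ?_, ?_, ?_, ?_⟩
  · exact b.linearIndependent.map' (Submodule.subtype _) (Submodule.ker_subtype _)
  · intro x
    have h1 := b.sum_repr (A.mulVecLin.rangeRestrict x)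
    have h2 := congrArg (fun z : rg A => (z : Fin (m + 1) → F)) h1
    have h3 : ((A.mulVecLin.rangeRestrict x : rg A) : Fin (m + 1) → F) = A *ᵥ x := rfl
    simp only [h3] at h2
    rw [← h2, Submodule.coe_sum]
    refine Finset.sum_congr rfl fun i _ => ?_
    rw [hψ]
    rfl
  · intro i j
    rw [hψ, hy, Module.Basis.coord_apply, Module.Basis.repr_self, Finsupp.single_apply]
    simp only [eq_comm]
  · intro i x hx
    rw [hψ]
    have : A.mulVecLin.rangeRestrict x = 0 := Subtype.ext hx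
    rw [this, map_zero]

theorem exists_u (A : Mt m F) {r : ℕ} (hr : Module.finrank F (rg A) = r) (hn : 3 * r ≤ m)
    (v : Fin r → (Fin (m + 1) → F)) (z : Fin (m + 1) → F) :
    ∃ u : Fin r → (Fin (m + 1) → F), (∀ i, A *ᵥ u i = 0) ∧ LinearIndependent F
      (Submodule.Quotient.mk (p := Submodule.span F (Set.range v) ⊔ Submodule.span F {z}) ∘ u) := by
  set Q := Submodule.span F (Set.range v) ⊔ Submodule.span F {z} with hQ
  set N := LinearMap.ker A.mulVecLin with hN
  have h1 : Module.finrank F Q ≤ r + 1 := by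
    have a1 := Submodule.finrank_add_le_finrank_add_finrank (Submodule.span F (Set.range v))
      (Submodule.span F {z})
    have a2 : Module.finrank F (Submodule.span F (Set.range v)) ≤ r := by
      have := finrank_range_le_card (R := F) v
      rw [Fintype.card_fin] at this
      exact this
    have a3 : Module.finrank F (Submodule.span F {z}) ≤ 1 := by
      have := finrank_span_le_card (R := F) ({z} : Set (Fin (m + 1) → F))
      simpa using this
    rw [← hQ] at a1
    omega
  have h2 : r + Module.finrank F N = m + 1 := by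
    have := LinearMap.finrank_range_add_finrank_ker A.mulVecLin
    rw [Module.finrank_fin_fun] at this
    rw [← hr]
    exact this
  let f : N →ₗ[F] ((Fin (m + 1) → F) ⧸ Q) := Q.mkQ ∘ₗ N.subtype
  have h3 := LinearMap.finrank_range_add_finrank_ker f
  have h4 : Module.finrank F (LinearMap.ker f) ≤ Module.finrank F Q := by
    let j : LinearMap.ker f →ₗ[F] Q :=
      { toFun := fun x => ⟨(x.1 : Fin (m + 1) → F), by
          have hx : f x.1 = 0 := x.2
          have hx2 : Q.mkQ (x.1 : Fin (m + 1) → F) = 0 := hx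
          rwa [Submodule.mkQ_apply, Submodule.Quotient.mk_eq_zero] at hx2⟩
        map_add' := fun _ _ => rfl
        map_smul' := fun _ _ => rfl }
    apply LinearMap.finrank_le_finrank_of_injective (f := j)
    intro x y hxy
    apply Subtype.ext
    apply Subtype.ext
    exact congrArg (fun q : Q => (q : Fin (m + 1) → F)) hxy
  have h5 : r ≤ Module.finrank F (LinearMap.range f) := by omega
  obtain ⟨q, hq⟩ := exists_linearIndependent_of_le_finrank h5
  have hlift : ∀ i, ∃ x : N, f x = q i := fun i => (q i).2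
  choose x hx using hlift
  refine ⟨fun i => (x i : Fin (m + 1) → F), fun i => (x i).2, ?_⟩
  have h6 := hq.map' (Submodule.subtype _) (Submodule.ker_subtype _)
  have h7 : (Submodule.Quotient.mk (p := Q) ∘ fun i => (x i : Fin (m + 1) → F)) =
      (Submodule.subtype (LinearMap.range f)) ∘ q := by
    funext i
    exact hx i
  rw [h7]
  exact h6

/-- the element of `SL_n(F)` in general position -/
theorem exists_pos (A : Mt m F) {r : ℕ} (hr : Module.finrank F (rg A) = r) (hr0 : 0 < r)
    (hn : 3 * r ≤ m) {v ψ y : Fin r → (Fin (m + 1) → F)} (hv : LinearIndependent F v)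
    (hψy : ∀ i j, ψ i ⬝ᵥ y j = if i = j then 1 else 0)
    (hker : ∀ i x, A *ᵥ x = 0 → ψ i ⬝ᵥ x = 0) :
    ∃ g : SL m F, (∀ i j, ψ i ⬝ᵥ (g.1 *ᵥ v j) =
        if j = ⟨0, hr0⟩ then (if i = ⟨0, hr0⟩ then 1 else 0) else 0) ∧
      ∀ i j, ψ i ⬝ᵥ ((g⁻¹).1 *ᵥ v j) = 0 := by
  set z := y ⟨0, hr0⟩ with hz
  obtain ⟨u, hu, hul⟩ := exists_u A hr hn v z
  set Q := Submodule.span F (Set.range v) ⊔ Submodule.span F {z} with hQ
  have hvQ : ∀ j, v j ∈ Q := fun j => Submodule.mem_sup_left (Submodule.subset_span ⟨j, rfl⟩)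
  have hzQ : z ∈ Q := Submodule.mem_sup_right (Submodule.mem_span_singleton_self z)
  let vQ : Fin r → Q := fun j => ⟨v j, hvQ j⟩
  have hvQl : LinearIndependent F vQ := by
    apply LinearIndependent.of_comp Q.subtype
    exact hv
  have hsrc : LinearIndependent F (Sum.elim v u) := hvQl.sumElim_of_quotient u hul
  let u' : Fin r → (Fin (m + 1) → F) := fun j => u j + if j = ⟨0, hr0⟩ then z else 0
  have hu'l : LinearIndependent F (Submodule.Quotient.mk (p := Q) ∘ u') := by
    convert hul using 1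
    funext j
    show Submodule.Quotient.mk (u j + if j = ⟨0, hr0⟩ then z else 0) = Submodule.Quotient.mk (u j)
    rw [Submodule.Quotient.eq]
    rw [add_sub_cancel_left]
    split_ifs
    · exact hzQ
    · exact Q.zero_mem
  have hnvl : LinearIndependent F (-vQ) := by
    have := hvQl.units_smul (fun _ => (-1 : Fˣ))
    convert this using 1
    funext j
    apply Subtype.ext
    show -(v j) = ((-1 : Fˣ) • vQ j : Q)
    rw [Units.smul_def]
    show -(v j) = ((-1 : Fˣ) : F) • v j
    rw [Units.val_neg, Units.val_one, neg_one_smul]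
  have htgt0 : LinearIndependent F (Sum.elim (fun j => ((-vQ) j : Fin (m + 1) → F)) u') :=
    hnvl.sumElim_of_quotient u' hu'l
  have htgt : LinearIndependent F (Sum.elim u' (fun j => ((-vQ) j : Fin (m + 1) → F))) := by
    have := htgt0.comp (Equiv.sumComm (Fin r) (Fin r)) (Equiv.injective _)
    convert this using 1
    funext j
    rcases j with j | j <;> rfl
  obtain ⟨g, hg⟩ := trans_fintype (by simp; omega) _ _ hsrc htgt
  have hg1 : ∀ j, g.1 *ᵥ v j = u j + if j = ⟨0, hr0⟩ then z else 0 := fun j => hg (Sum.inl j)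
  have hg2 : ∀ j, g.1 *ᵥ u j = - v j := fun j => hg (Sum.inr j)
  refine ⟨g, fun i j => ?_, fun i j => ?_⟩
  · rw [hg1, dotProduct_add, hker i _ (hu j), zero_add]
    split_ifs with h1 h2
    · rw [hz, hψy, if_pos h2]
    · rw [hz, hψy, if_neg h2]
    · rw [dotProduct_zero]
  · have h1 : (g⁻¹).1 *ᵥ v j = - u j := by
      apply inv_mulVec
      rw [mulVec_neg, hg2, neg_neg]
    rw [h1, dotProduct_neg, hker i _ (hu j), neg_zero]

end Run7.h806.TV
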