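import Pool.Agent.Run7.h806.TV.Base

/-!
# A generating set invariant under a root subgroup has short words for this root subgroup
-/

set_option autoImplicit false

namespace Run7.h806.TV

open Matrix
open Pool.Agent.R167.HG (Ball SL Mt)
open Pool.Agent.R167.HG.MainP

section comm

variable {F : Type} [Field F] {G : Type} [Group G] (X : F → G)
  (hX : ∀ a b, X (a + b) = X a * X b) {S : Set G}
  (hS : ∀ c, ∀ s ∈ S, X c * s * (X c)⁻¹ ∈ S)

include hX in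
theorem X_zero : X 0 = 1 := by
  have h := hX 0 0
  rw [add_zero] at h
  exact (mul_eq_left.1 h.symm)

include hX in
theorem X_neg (c : F) : X (-c) = (X c)⁻¹ := by
  rw [eq_inv_iff_mul_eq_one, ← hX, neg_add_cancel, X_zero X hX]

omit [Field F] in
include hS in
theorem ball_conj (c : F) {k : ℕ} {b : G} (hb : b ∈ Ball S k) : X c * b * (X c)⁻¹ ∈ Ball S k := by
  obtain ⟨l, hl, hl', rfl⟩ := hb
  refine ⟨l.map (MulAut.conj (X c)), by simpa using hl, ?_, ?_⟩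
  · intro x hx
    rw [List.mem_map] at hx
    obtain ⟨y, hy, rfl⟩ := hx
    rcases hl' y hy with h | h
    · exact Or.inl (hS c y h)
    · right
      rw [← map_inv]
      exact hS c _ h
  · rw [← map_list_prod]
    rfl

/-- `h` is a word of length `k` times an element of the root subgroup -/
def PP (S : Set G) (k : ℕ) (h : G) : Prop := ∃ b ∈ Ball S k, ∃ c, h = b * X c

include hX hS in
theorem PP_mul {k l : ℕ} {g h : G} (hg : PP X S k g) (hh : PP X S l h) :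
    PP X S (k + l) (g * h) := by
  obtain ⟨b, hb, c, rfl⟩ := hg
  obtain ⟨b', hb', c', rfl⟩ := hh
  refine ⟨b * (X c * b' * (X c)⁻¹), ball_mul hb (ball_conj X hS c hb'), c + c', ?_⟩
  rw [hX]
  group

include hS in
theorem PP_conj {k : ℕ} {w : G} (hw : w ∈ Ball S k) (d : F) : PP X S (2 * k) (w * X d * w⁻¹) := by
  refine ⟨w * (X d * w⁻¹ * (X d)⁻¹), ?_, d, by group⟩
  exact ball_mono (by omega) (ball_mul hw (ball_conj X hS d (ball_inv hw)))

omit [Field F] in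
theorem PP_X (d : F) : PP X S 0 (X d) := ⟨1, ball_one, d, by rw [one_mul]⟩

include hX hS in
theorem PP_comm {k : ℕ} {h : G} (hh : PP X S k h) (c : F) :
    h * X c * h⁻¹ * (X c)⁻¹ ∈ Ball S (2 * k) := by
  obtain ⟨b, hb, d, rfl⟩ := hh
  have h1 : b * X d * X c * (b * X d)⁻¹ * (X c)⁻¹ = b * (X c * b⁻¹ * (X c)⁻¹) := by
    have h2 : X d * X c * (X d)⁻¹ = X c := by
      rw [← hX, add_comm, hX, mul_inv_cancel_right]
    calc b * X d * X c * (b * X d)⁻¹ * (X c)⁻¹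
        = b * (X d * X c * (X d)⁻¹) * b⁻¹ * (X c)⁻¹ := by group
      _ = b * (X c * b⁻¹ * (X c)⁻¹) := by rw [h2]; group
  rw [h1]
  exact ball_mono (by omega) (ball_mul hb (ball_conj X hS c (ball_inv hb)))

end comm

variable {m : ℕ} {F : Type} [Field F]

/-- `S` generates and is invariant under conjugation by the transvections `1 + c e φ` -/
def Inv (S : Set (SL m F)) (e φ : Fin (m + 1) → F) : Prop :=
  Subgroup.closure S = ⊤ ∧ ∀ c : F, ∀ s ∈ S, T (c • e) φ * s * (T (c • e) φ)⁻¹ ∈ S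

/-- the functional of the vector `e` and the linear form `φ` on the matrices -/
def lamM (φ e : Fin (m + 1) → F) : Mt m F →ₗ[F] F where
  toFun M := φ ⬝ᵥ (M *ᵥ e)
  map_add' M N := by rw [add_mulVec, dotProduct_add]
  map_smul' c M := by rw [smul_mulVec, dotProduct_smul, RingHom.id_apply]

theorem exists_dot_eq_one {v : Fin (m + 1) → F} (hv : v ≠ 0) :
    ∃ ψ : Fin (m + 1) → F, ψ ⬝ᵥ v = 1 := by
  obtain ⟨i, hi⟩ := Function.ne_iff.1 hv
  refine ⟨Pi.single i (v i)⁻¹, ?_⟩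
  rw [single_dotProduct]
  exact inv_mul_cancel₀ hi

/-- a short word `g` with `φ (g e) ≠ 0` and `φ (g⁻¹ e) ≠ 0` -/
theorem exists_gen {S : Set (SL m F)} (hS : Subgroup.closure S = ⊤) {e φ : Fin (m + 1) → F}
    (he : e ≠ 0) (hφ : φ ≠ 0) (h : φ ⬝ᵥ e = 0) :
    ∃ g ∈ Ball S ((m + 1) ^ 2), φ ⬝ᵥ (g.1 *ᵥ e) ≠ 0 ∧ (φ ᵥ* (g⁻¹).1) ⬝ᵥ e ≠ 0 := by
  obtain ⟨f, hf⟩ := exists_dot_eq_one hφ
  rw [dotProduct_comm] at hf
  obtain ⟨ψ0, hψ0⟩ := exists_dot_eq_one he
  set ψ : Fin (m + 1) → F := ψ0 - (ψ0 ⬝ᵥ f) • φ with hψ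
  have h1 : ψ ⬝ᵥ f = 0 := by rw [hψ, sub_dotProduct, smul_dotProduct, hf, smul_eq_mul]; ring
  have h2 : ψ ⬝ᵥ e = 1 := by rw [hψ, sub_dotProduct, smul_dotProduct, h, hψ0, smul_zero, sub_zero]
  have key : ∀ g : SL m F, lamM φ e (g.1 * vecMulVec e φ * (g⁻¹).1) =
      (φ ⬝ᵥ (g.1 *ᵥ e)) * ((φ ᵥ* (g⁻¹).1) ⬝ᵥ e) := by
    intro g
    show φ ⬝ᵥ ((g.1 * vecMulVec e φ * (g⁻¹).1) *ᵥ e) = _
    rw [mul_vecMulVec, vecMulVec_mul, vecMulVec_mulVec]
    simp only [dotProduct_smul, op_smul_eq_smul, smul_eq_mul]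
    ring
  obtain ⟨g, hg, hg2⟩ := Pool.Agent.R167.HG.t_CHAIN F m S hS (vecMulVec e φ) (lamM φ e) (T f ψ) (by
    rw [key, T_mulVec h1, T_vecMul_inv h1, h2, dotProduct_add, h, one_smul, hf, sub_dotProduct, h,
      smul_dotProduct, h2]
    simp)
  rw [key] at hg2
  exact ⟨g, hg, left_ne_zero_of_mul hg2, right_ne_zero_of_mul hg2⟩

theorem exists_alpha (h4 : ∃ s : Finset F, s.card = 4) : ∃ a : F, a ≠ 0 ∧ a ^ 2 ≠ 1 := by
  classical
  obtain ⟨s, hs⟩ := h4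
  have h1 : ∃ a ∈ s, a ∉ ({0, 1, -1} : Finset F) := by
    apply Finset.exists_mem_notMem_of_card_lt_card
    calc _ ≤ 3 := Finset.card_le_three
      _ < s.card := by omega
  obtain ⟨a, -, ha⟩ := h1
  simp only [Finset.mem_insert, Finset.mem_singleton, not_or] at ha
  refine ⟨a, ha.1, fun h => ?_⟩
  have h2 : (a - 1) * (a + 1) = 0 := by ring_nf; rw [h]; ring
  rcases mul_eq_zero.1 h2 with h3 | h3
  · exact ha.2.1 (sub_eq_zero.1 h3)
  · exact ha.2.2 (eq_neg_of_add_eq_zero_left h3)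

/-- TORUS -/
theorem torus {S : Set (SL m F)} {e φ : Fin (m + 1) → F} (h4 : ∃ s : Finset F, s.card = 4)
    (he : e ≠ 0) (hφ : φ ≠ 0) (h : φ ⬝ᵥ e = 0) (hS : Inv S e φ) : R S (8 * (m + 1) ^ 2) e φ := by
  obtain ⟨w, hw, hp, hp'⟩ := exists_gen hS.1 he hφ h
  obtain ⟨α, hα, hα2⟩ := exists_alpha h4
  set X : F → SL m F := fun c => T (c • e) φ with hXdef
  have hce : ∀ c : F, φ ⬝ᵥ (c • e) = 0 := fun c => by rw [dotProduct_smul, h, smul_zero]
  have hX : ∀ a b, X (a + b) = X a * X b := by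
    intro a b
    show T ((a + b) • e) φ = T (a • e) φ * T (b • e) φ
    rw [T_add_left (hce a) (hce b), add_smul]
  set f := w.1 *ᵥ e with hf
  set ψ := φ ᵥ* (w⁻¹).1 with hψ
  have hψf : ψ ⬝ᵥ f = 0 := by rw [hψ, hf, pair_conj, h]
  have hcf : ∀ c : F, ψ ⬝ᵥ (c • f) = 0 := fun c => by rw [dotProduct_smul, hψf, smul_zero]
  set p := φ ⬝ᵥ f with hpdef
  set p' := ψ ⬝ᵥ e with hp'def
  have hy : ∀ d : F, w * X d * w⁻¹ = T (d • f) ψ := by
    intro d
    show w * T (d • e) φ * w⁻¹ = _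
    rw [T_conj, mulVec_smul]
  set d1 := (α - 1) / (p * p') with hd1
  set d2 := - d1 / α with hd2
  set hh : SL m F := T (d2 • f) ψ * (X 1 * T (d1 • f) ψ) with hhdef
  have hPP : PP X S (4 * (m + 1) ^ 2) hh := by
    have a1 := PP_conj X hS.2 hw d2
    have a2 := PP_conj X hS.2 hw d1
    rw [hy] at a1 a2
    have a3 := PP_mul X hX hS.2 a1 (PP_mul X hX hS.2 (PP_X X 1) a2)
    convert a3 using 1
    ring
  have b1 : 1 + p * p' * d1 = α := by
    rw [hd1]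
    field_simp
    ring
  have b2 : d1 + α * d2 = 0 := by
    rw [hd2]
    field_simp
    ring
  have e1 : hh.1 *ᵥ e = α • e := by
    show ((T (d2 • f) ψ).1 * ((T ((1 : F) • e) φ).1 * (T (d1 • f) ψ).1)) *ᵥ e = _
    rw [← mulVec_mulVec, ← mulVec_mulVec, T_mulVec (hcf d1), T_mulVec (hce 1), T_mulVec (hcf d2)]
    simp only [dotProduct_add, dotProduct_smul, h, hψf, ← hpdef, ← hp'def, smul_eq_mul, one_smul]
    ext i
    simp only [Pi.add_apply, Pi.smul_apply, smul_eq_mul]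
    linear_combination (e i + p' * f i * d2) * b1 + (p' * f i) * b2
  have e2 : φ ᵥ* (hh⁻¹).1 = α • φ := by
    have e3 : (hh⁻¹).1 = ((T (d1 • f) ψ)⁻¹).1 * ((T ((1 : F) • e) φ)⁻¹).1 *
        ((T (d2 • f) ψ)⁻¹).1 := by
      rw [hhdef, _root_.mul_inv_rev, _root_.mul_inv_rev]
      rfl
    rw [e3, ← vecMul_vecMul, ← vecMul_vecMul, T_vecMul_inv (hcf d1), T_vecMul_inv (hce 1),
      T_vecMul_inv (hcf d2)]
    simp only [sub_dotProduct, smul_dotProduct, dotProduct_smul, h, hψf, ← hpdef, ← hp'def,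
      smul_eq_mul, one_smul]
    ext i
    simp only [Pi.sub_apply, Pi.smul_apply, smul_eq_mul]
    linear_combination (φ i - p * ψ i * d2) * b1 - (p * ψ i) * b2
  have hconj : ∀ c : F, hh * X c * hh⁻¹ = X (α ^ 2 * c) := by
    intro c
    show hh * T (c • e) φ * hh⁻¹ = T ((α ^ 2 * c) • e) φ
    rw [T_conj, mulVec_smul, e1, e2, ← T_smul]
    congr 1
    rw [smul_smul, smul_smul]
    congr 1
    ring
  intro c
  have h5 := PP_comm X hX hS.2 hPP (c / (α ^ 2 - 1))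
  rw [hconj, ← X_neg X hX, ← hX] at h5
  have h6 : α ^ 2 * (c / (α ^ 2 - 1)) + -(c / (α ^ 2 - 1)) = c := by
    have : α ^ 2 - 1 ≠ 0 := sub_ne_zero.2 hα2
    field_simp
    ring
  rw [h6] at h5
  convert h5 using 1
  ring

end Run7.h806.TV
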